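import Mathlib

/-!
Coding analytic sets into the translation action on sequences of Lipschitz functions.
-/

namespace Pool.Agent.P.MP_0bef39_lc

open Set Metric Filter Topology MeasureTheory PiNat

section Space

variable (Q : Type*) [SeminormedAddCommGroup Q]

/-- Sequences of `1`-Lipschitz functions `Q → [0,1]`, with the topology of pointwise
convergence. -/
def LipSeq : Type _ :=
  {f : ℕ → Q → ℝ // (∀ n x y, f n x - f n y ≤ ‖x - y‖) ∧ ∀ n x, f n x ∈ Icc (0 : ℝ) 1}

instance : TopologicalSpace (LipSeq Q) := instTopologicalSpaceSubtype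

instance : T2Space (LipSeq Q) := inferInstanceAs (T2Space (Subtype _))

instance : CompactSpace (LipSeq Q) := by
  refine isCompact_iff_compactSpace.mp (?_ : IsCompact
    {f : ℕ → Q → ℝ | (∀ n x y, f n x - f n y ≤ ‖x - y‖) ∧ ∀ n x, f n x ∈ Icc (0 : ℝ) 1})
  have h1 : IsCompact (Set.pi univ fun _ : ℕ => Set.pi univ fun _ : Q => Icc (0 : ℝ) 1) :=
    isCompact_univ_pi fun _ => isCompact_univ_pi fun _ => isCompact_Icc
  refine h1.of_isClosed_subset ?_ fun f hf n _ x _ => hf.2 n x
  simp only [ofPred_and, ofPred_forall]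
  refine IsClosed.inter (isClosed_iInter fun n => isClosed_iInter fun x => isClosed_iInter fun y =>
    isClosed_le (by fun_prop) continuous_const)
    (isClosed_iInter fun n => isClosed_iInter fun x => ?_)
  exact isClosed_Icc.preimage (f := fun f : ℕ → Q → ℝ => f n x) (by fun_prop)

variable {Q}

theorem LipSeq.continuous_val (f : LipSeq Q) (n : ℕ) : Continuous (f.1 n) := by
  refine (LipschitzWith.of_le_add fun x y => ?_).continuous
  have := f.2.1 n x y
  rw [dist_eq_norm]
  linarith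

theorem LipSeq.continuous_eval (n : ℕ) (x : Q) : Continuous fun f : LipSeq Q => f.1 n x :=
  (continuous_apply x).comp ((continuous_apply n).comp continuous_subtype_val)

theorem LipSeq.continuous_mk {Z : Type*} [TopologicalSpace Z] {F : Z → LipSeq Q}
    (h : ∀ n x, Continuous fun z => (F z).1 n x) : Continuous F :=
  continuous_induced_rng.mpr (continuous_pi fun n => continuous_pi fun x => h n x)

theorem LipSeq.metrizable [TopologicalSpace.SeparableSpace Q] :
    TopologicalSpace.MetrizableSpace (LipSeq Q) := by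
  let Φ : LipSeq Q → ℕ → ℕ → ℝ := fun f n k => f.1 n (TopologicalSpace.denseSeq Q k)
  have h1 : Continuous Φ :=
    continuous_pi fun n => continuous_pi fun k => LipSeq.continuous_eval n _
  have h2 : Function.Injective Φ := by
    intro f g h
    refine Subtype.ext (funext fun n => ?_)
    refine (TopologicalSpace.denseRange_denseSeq Q).equalizer (f.continuous_val n)
      (g.continuous_val n) (funext fun k => ?_)
    exact congrFun (congrFun h n) k
  exact (h1.isClosedEmbedding h2).isEmbedding.metrizableSpace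

instance : AddAction Q (LipSeq Q) where
  vadd g f := ⟨fun n x => f.1 n (x - g),
    fun n x y => by simpa using f.2.1 n (x - g) (y - g), fun n x => f.2.2 n _⟩
  zero_vadd f := Subtype.ext (funext fun n => funext fun x => by
    change f.1 n (x - 0) = _
    rw [sub_zero])
  add_vadd g h f := Subtype.ext (funext fun n => funext fun x => by
    change f.1 n (x - (g + h)) = f.1 n (x - g - h)
    rw [sub_sub])

theorem LipSeq.vadd_val (g : Q) (f : LipSeq Q) (n : ℕ) (x : Q) :
    (g +ᵥ f).1 n x = f.1 n (x - g) := rfl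

instance : ContinuousVAdd Q (LipSeq Q) where
  continuous_vadd := by
    refine LipSeq.continuous_mk fun n x => ?_
    simp only [LipSeq.vadd_val]
    have h1 : Continuous fun p : Q × LipSeq Q => p.2.1 n p.1 := by
      refine continuous_prod_of_continuous_lipschitzWith (fun p : Q × LipSeq Q => p.2.1 n p.1) 1
        (fun x => LipSeq.continuous_eval n x) fun f => ?_
      refine LipschitzWith.of_le_add fun x y => ?_
      have := f.2.1 n x y
      rw [dist_eq_norm]
      linarith
    exact h1.comp ((continuous_const.sub continuous_fst).prodMk continuous_snd)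

open Classical in
/-- The truncated distance to a set. -/
noncomputable def tdist (S : Set Q) (x : Q) : ℝ :=
  if S.Nonempty then min 1 (infDist x S) else 1

theorem tdist_lip (S : Set Q) (x y : Q) : tdist S x - tdist S y ≤ ‖x - y‖ := by
  unfold tdist
  split_ifs with h
  · have := infDist_le_infDist_add_dist (x := x) (y := y) (s := S)
    rw [dist_eq_norm] at this
    rcases le_total 1 (infDist y S) with h1 | h1
    · rw [min_eq_left h1]
      linarith [min_le_left 1 (infDist x S), norm_nonneg (x - y)]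
    · rw [min_eq_right h1]
      linarith [min_le_right 1 (infDist x S)]
  · simp

theorem tdist_mem (S : Set Q) (x : Q) : tdist S x ∈ Icc (0 : ℝ) 1 := by
  unfold tdist
  split_ifs with h
  · exact ⟨le_min zero_le_one infDist_nonneg, min_le_left _ _⟩
  · exact ⟨zero_le_one, le_rfl⟩

theorem tdist_of_mem {S : Set Q} {x : Q} (h : x ∈ S) : tdist S x = 0 := by
  unfold tdist
  rw [if_pos ⟨x, h⟩, infDist_zero_of_mem h]
  simp

theorem exists_of_tdist {S : Set Q} {x : Q} (h : tdist S x = 0) {ε : ℝ} (hε : 0 < ε) :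
    ∃ s ∈ S, ‖x - s‖ < ε := by
  unfold tdist at h
  split_ifs at h with h1
  · have h2 : infDist x S < ε := by
      rcases min_eq_iff.mp h with h3 | h3
      · simp at h3
      · rw [h3.1]; exact hε
    obtain ⟨s, hs, h3⟩ := (infDist_lt_iff h1).mp h2
    exact ⟨s, hs, by rwa [← dist_eq_norm]⟩
  · simp at h

theorem tdist_image (S : Set Q) (g x : Q) : tdist ((· + g) '' S) x = tdist S (x - g) := by
  unfold tdist
  rw [image_nonempty, ← infDist_image (isometry_add_right g) (x := x - g), sub_add_cancel]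

/-- The point of `LipSeq Q` given by a sequence of sets. -/
noncomputable def ofSets (S : ℕ → Set Q) : LipSeq Q :=
  ⟨fun n => tdist (S n), fun n => tdist_lip (S n), fun n => tdist_mem (S n)⟩

end Space

section Threads

/-- Integer threads through `T` up to level `n` with total weight `e`. -/
def Thr (T : List ℕ → Prop) (e : ℤ) (n : ℕ) : Set (List ℕ →₀ ℤ) :=
  {a | a [] = 0 ∧ (∀ σ, σ.length ≤ n → a σ ≠ 0 → T σ) ∧
    (∀ σ, σ ≠ [] → σ.length < n → a.mapDomain List.tail σ = a σ) ∧
    a.mapDomain List.tail [] = e}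

theorem Thr.add {T : List ℕ → Prop} {e e' : ℤ} {n : ℕ} {a b : List ℕ →₀ ℤ}
    (ha : a ∈ Thr T e n) (hb : b ∈ Thr T e' n) : a + b ∈ Thr T (e + e') n := by
  obtain ⟨a1, a2, a3, a4⟩ := ha
  obtain ⟨b1, b2, b3, b4⟩ := hb
  refine ⟨by simp [a1, b1], fun σ h1 h2 => ?_, fun σ h1 h2 => ?_, ?_⟩
  · by_cases h : a σ = 0
    · exact b2 σ h1 (by simpa [h] using h2)
    · exact a2 σ h1 h
  · rw [Finsupp.mapDomain_add, Finsupp.add_apply, Finsupp.add_apply, a3 σ h1 h2, b3 σ h1 h2]
  · rw [Finsupp.mapDomain_add, Finsupp.add_apply, a4, b4]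

theorem Thr.neg {T : List ℕ → Prop} {e : ℤ} {n : ℕ} {a : List ℕ →₀ ℤ}
    (ha : a ∈ Thr T e n) : -a ∈ Thr T (-e) n := by
  obtain ⟨a1, a2, a3, a4⟩ := ha
  have h : (-a).mapDomain List.tail = -a.mapDomain List.tail :=
    map_neg (Finsupp.mapDomain.addMonoidHom List.tail) a
  refine ⟨by simp [a1], fun σ h1 h2 => a2 σ h1 (by simpa using h2), fun σ h1 h2 => ?_, ?_⟩
  · rw [h, Finsupp.neg_apply, Finsupp.neg_apply, a3 σ h1 h2]
  · rw [h, Finsupp.neg_apply, a4]

theorem Thr.zero (T : List ℕ → Prop) (n : ℕ) : 0 ∈ Thr T 0 n := by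
  refine ⟨rfl, fun σ _ h => (h rfl).elim, fun σ _ _ => ?_, ?_⟩ <;> simp

theorem Thr.congr {T T' : List ℕ → Prop} (e : ℤ) {n : ℕ}
    (h : ∀ σ, σ.length ≤ n → (T σ ↔ T' σ)) : Thr T e n = Thr T' e n := by
  ext a
  refine and_congr_right fun _ => and_congr_left fun _ => ?_
  exact forall₂_congr fun σ h1 => by rw [h σ h1]

/-- The thread given by a branch. -/
noncomputable def br (β : ℕ → ℕ) (N : ℕ) : List ℕ →₀ ℤ :=
  ∑ m ∈ Finset.range N, Finsupp.single (res β (m + 1)) 1

theorem br_mem {T : List ℕ → Prop} {β : ℕ → ℕ} (hT : ∀ m, T (res β m)) {n N : ℕ} (h : n < N) :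
    br β N ∈ Thr T 1 n := by
  have h1 : (br β N).mapDomain List.tail + Finsupp.single (res β N) 1 =
      br β N + Finsupp.single [] 1 := by
    unfold br
    rw [Finsupp.mapDomain_finsetSum]
    simp only [Finsupp.mapDomain_single, res_succ, List.tail_cons]
    rw [← Finset.sum_range_succ (fun m => Finsupp.single (res β m) (1 : ℤ)),
      Finset.sum_range_succ']
    rfl
  have h2 : ∀ σ, br β N σ ≠ 0 → ∃ m, σ = res β (m + 1) := by
    intro σ hσ
    by_contra hcon
    push Not at hcon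
    apply hσ
    unfold br
    rw [Finsupp.finsetSum_apply]
    exact Finset.sum_eq_zero fun m _ => Finsupp.single_eq_of_ne (hcon m)
  have h3 : br β N [] = 0 := by
    by_contra hcon
    obtain ⟨m, hm⟩ := h2 _ hcon
    simp at hm
  have h4 : ∀ σ : List ℕ, σ.length < N → Finsupp.single (res β N) (1 : ℤ) σ = 0 := by
    intro σ hσ
    refine Finsupp.single_eq_of_ne fun hc => ?_
    rw [hc, res_length] at hσ
    omega
  refine ⟨h3, fun σ _ hσ => ?_, fun σ h5 h6 => ?_, ?_⟩
  · obtain ⟨m, rfl⟩ := h2 σ hσ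
    exact hT _
  · have := DFunLike.congr_fun h1 σ
    rwa [Finsupp.add_apply, Finsupp.add_apply, h4 σ (by omega), Finsupp.single_eq_of_ne h5,
      add_zero, add_zero] at this
  · have := DFunLike.congr_fun h1 []
    rwa [Finsupp.add_apply, Finsupp.add_apply, h4 [] (by simp; omega), h3,
      Finsupp.single_eq_same, add_zero, zero_add] at this

theorem exists_branch {T : List ℕ → Prop} (a : ℕ → List ℕ →₀ ℤ) (ha : ∀ n, a n ∈ Thr T 1 n)
    (hc : ∀ n σ, σ.length ≤ n + 1 → a (n + 1) σ = a n σ) :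
    ∃ β : ℕ → ℕ, ∀ m, T (res β (m + 1)) := by
  classical
  have h1 : ∀ n σ, (a n).mapDomain List.tail σ ≠ 0 → ∃ i, a n (i :: σ) ≠ 0 := by
    intro n σ h
    obtain ⟨τ, h2, h3⟩ := Finset.mem_image.mp
      (Finsupp.mapDomain_support (Finsupp.mem_support_iff.mpr h))
    have h4 := Finsupp.mem_support_iff.mp h2
    cases τ with
    | nil => exact (h4 (ha n).1).elim
    | cons i τ => exact ⟨i, by rw [← h3]; exact h4⟩
  have h2 : ∀ n σ, σ.length = n + 1 → a n σ ≠ 0 → ∃ i, a (n + 1) (i :: σ) ≠ 0 := by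
    intro n σ h3 h4
    have h5 : a (n + 2) σ ≠ 0 := by
      rwa [hc (n + 1) σ (by omega), hc n σ (by omega)]
    rw [← (ha (n + 2)).2.2.1 σ (by rintro rfl; simp at h3) (by omega)] at h5
    obtain ⟨i, hi⟩ := h1 _ _ h5
    exact ⟨i, by rwa [hc (n + 1) _ (by simp; omega)] at hi⟩
  obtain ⟨i₀, hi₀⟩ := h1 0 [] (by rw [(ha 0).2.2.2]; exact one_ne_zero)
  choose! nx hnx using h2
  let L : ℕ → List ℕ := fun n => Nat.rec [i₀] (fun n σ => nx n σ :: σ) n
  have hL : ∀ n, (L n).length = n + 1 ∧ a n (L n) ≠ 0 := by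
    intro n
    induction n with
    | zero => exact ⟨rfl, hi₀⟩
    | succ n ih => exact ⟨congrArg (· + 1) ih.1, hnx n (L n) ih.1 ih.2⟩
  let β : ℕ → ℕ := fun n => (L n).headI
  have hβ : ∀ n, res β (n + 1) = L n := by
    intro n
    induction n with
    | zero => rfl
    | succ n ih => rw [res_succ, ih]; rfl
  refine ⟨β, fun m => ?_⟩
  rw [hβ]
  refine (ha (m + 1)).2.1 _ (hL m).1.le ?_
  rw [hc m _ (hL m).1.le]
  exact (hL m).2

/-- The tree of a section of a set of pairs. -/
def tr (F : Set ((ℕ → ℕ) × (ℕ → ℕ))) (α : ℕ → ℕ) (σ : List ℕ) : Prop :=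
  ∃ q ∈ F, (∀ i < σ.length, q.1 i = α i) ∧ res q.2 σ.length = σ

theorem mem_of_tr {F : Set ((ℕ → ℕ) × (ℕ → ℕ))} (hF : IsClosed F) {α β : ℕ → ℕ}
    (h : ∀ m, tr F α (res β (m + 1))) : (α, β) ∈ F := by
  choose q hq1 hq2 hq3 using h
  simp only [res_length] at hq2 hq3
  refine hF.mem_of_tendsto (f := q) (b := atTop) ?_ (Eventually.of_forall hq1)
  refine (Prod.tendsto_iff _ _).mpr ⟨tendsto_pi_nhds.mpr fun i => ?_, tendsto_pi_nhds.mpr fun i => ?_⟩
  · refine tendsto_const_nhds.congr' (eventually_atTop.mpr ⟨i, fun m hm => ?_⟩)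
    exact (hq2 m i (by omega)).symm
  · refine tendsto_const_nhds.congr' (eventually_atTop.mpr ⟨i, fun m hm => ?_⟩)
    exact (res_eq_res.mp (hq3 m) (by omega)).symm

end Threads

theorem exists_closed_of_analytic {D : Set (ℕ → ℕ)} (hD : AnalyticSet D) :
    ∃ F : Set ((ℕ → ℕ) × (ℕ → ℕ)), IsClosed F ∧ Prod.fst '' F = D := by
  rw [AnalyticSet] at hD
  rcases hD with h1 | ⟨f, hf, h1⟩
  · exact ⟨∅, isClosed_empty, by rw [h1, Set.image_empty]⟩
  · refine ⟨{q | f q.2 = q.1}, isClosed_eq (hf.comp continuous_snd) continuous_fst, ?_⟩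
    rw [← h1]
    ext z
    simp

theorem coding {Q : Type*} [SeminormedAddCommGroup Q] (y : List ℕ → Q) (r : ℕ → ℝ)
    (hr : ∀ n, 0 < r n) (hanti : Antitone r)
    (hy : ∀ (a : List ℕ →₀ ℤ) σ, a σ ≠ 0 → r σ.length ≤ ‖Finsupp.linearCombination ℤ y a‖)
    (hconv : ∀ β : ℕ → ℕ, ∃ g,
      Tendsto (fun N => ∑ m ∈ Finset.range N, y (res β (m + 1))) atTop (𝓝 g))
    {D : Set (ℕ → ℕ)} (hD : AnalyticSet D) :
    ∃ f : (ℕ → ℕ) → LipSeq Q × LipSeq Q, Continuous f ∧
      D = f ⁻¹' {p | ∃ g : Q, g +ᵥ p.1 = p.2} := by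
  obtain ⟨F, hF, rfl⟩ := exists_closed_of_analytic hD
  set ev := Finsupp.linearCombination ℤ y with hev
  let u : ℤ → (ℕ → ℕ) → LipSeq Q := fun e α => ofSets fun n => ev '' Thr (tr F α) e n
  have hu : ∀ e, Continuous (u e) := by
    intro e
    refine LipSeq.continuous_mk fun n x => IsLocallyConstant.continuous ?_
    rw [IsLocallyConstant.iff_eventually_eq]
    intro α
    filter_upwards [(isOpen_cylinder (fun _ => ℕ) α n).mem_nhds (self_mem_cylinder α n)]
      with α' hα'
    change tdist (ev '' Thr (tr F α') e n) x = tdist (ev '' Thr (tr F α) e n) x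
    rw [Thr.congr e fun σ hσ => ?_]
    refine exists_congr fun q => and_congr_right fun _ => and_congr_left fun _ => ?_
    exact forall₂_congr fun i hi => by rw [mem_cylinder_iff.mp hα' i (by omega)]
  refine ⟨fun α => (u 0 α, u 1 α), (hu 0).prodMk (hu 1), Set.ext fun α => ⟨?_, ?_⟩⟩
  · rintro ⟨⟨_, β⟩, hβ, rfl⟩
    rename_i α
    obtain ⟨g, hg⟩ := hconv β
    have hT : ∀ m, tr F α (res β m) := fun m => ⟨(α, β), hβ, fun _ _ => rfl, by simp⟩
    refine ⟨g, Subtype.ext (funext fun n => funext fun x => ?_)⟩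
    change tdist (ev '' Thr (tr F α) 0 n) (x - g) = tdist (ev '' Thr (tr F α) 1 n) x
    have h1 : ∀ N, n < N → tdist (ev '' Thr (tr F α) 0 n)
        (x - ∑ m ∈ Finset.range N, y (res β (m + 1))) = tdist (ev '' Thr (tr F α) 1 n) x := by
      intro N hN
      have h2 : ev (br β N) = ∑ m ∈ Finset.range N, y (res β (m + 1)) := by
        simp only [br, map_sum, hev, Finsupp.linearCombination_single, one_smul]
      rw [← tdist_image, ← h2]
      congr 1
      ext v
      constructor
      · rintro ⟨_, ⟨a, ha, rfl⟩, rfl⟩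
        exact ⟨a + br β N, by simpa using Thr.add ha (br_mem hT hN), map_add _ _ _⟩
      · rintro ⟨a, ha, rfl⟩
        exact ⟨_, ⟨a + -br β N, by simpa using Thr.add ha (Thr.neg (br_mem hT hN)), rfl⟩,
          by simp⟩
    have h3 := (((u 0 α).continuous_val n).tendsto (x - g)).comp (hg.const_sub x)
    exact tendsto_nhds_unique h3
      (tendsto_const_nhds.congr' (eventually_atTop.mpr ⟨n + 1, fun N hN => (h1 N hN).symm⟩))
  · rintro ⟨g, hg⟩
    have h1 : ∀ n, ∃ a ∈ Thr (tr F α) 1 n, ‖g - ev a‖ < r (n + 1) / 2 := by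
      intro n
      have h2 : tdist (ev '' Thr (tr F α) 0 n) (g - g) = tdist (ev '' Thr (tr F α) 1 n) g :=
        congrFun (congrFun (congrArg Subtype.val hg) n) g
      have h0 : (0 : Q) ∈ ev '' Thr (tr F α) 0 n := ⟨0, Thr.zero _ _, map_zero _⟩
      rw [sub_self, tdist_of_mem h0] at h2
      obtain ⟨_, ⟨a, ha, rfl⟩, h3⟩ := exists_of_tdist h2.symm (half_pos (hr (n + 1)))
      exact ⟨a, ha, h3⟩
    choose a ha1 ha2 using h1
    obtain ⟨β, hβ⟩ := exists_branch a ha1 fun n σ hσ => by
      by_contra hcon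
      have h2 := hy (a (n + 1) - a n) σ (by simpa [sub_eq_zero] using hcon)
      have h3 : ev (a (n + 1) - a n) = (g - ev (a n)) - (g - ev (a (n + 1))) := by
        rw [map_sub]; abel
      have h4 := norm_sub_le (g - ev (a n)) (g - ev (a (n + 1)))
      have h5 := hanti hσ
      have h6 := hanti (Nat.le_succ (n + 1))
      rw [h3] at h2
      linarith [ha2 n, ha2 (n + 1)]
    exact ⟨(α, β), mem_of_tr hF hβ, rfl⟩

theorem exists_analytic_not_borel :
    ∃ D : Set (ℕ → ℕ), AnalyticSet D ∧ ¬ @MeasurableSet _ (borel _) D := by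
  obtain ⟨V, hV⟩ := TopologicalSpace.exists_seq_basis ((ℕ → ℕ) × (ℕ → ℕ))
  let F : Set ((ℕ → ℕ) × (ℕ → ℕ)) := {q | ∀ n, q.1 n = 0 → q ∉ V n}
  have hF : IsClosed F := by
    have : F = ⋂ n, ({q | q.1 n = 0}ᶜ ∪ (V n)ᶜ) := by
      ext q
      simp only [F, Set.mem_ofPred_eq, Set.mem_iInter, Set.mem_union, Set.mem_compl_iff]
      refine forall_congr' fun n => ?_
      tauto
    rw [this]
    refine isClosed_iInter fun n => IsClosed.union ?_ (hV.isOpen ⟨n, rfl⟩).isClosed_compl
    have h1 : Continuous fun q : (ℕ → ℕ) × (ℕ → ℕ) => q.1 n := by fun_prop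
    exact ((isOpen_discrete ({0} : Set ℕ)).preimage h1).isClosed_compl
  refine ⟨Prod.fst '' F, hF.analyticSet.image_of_continuous continuous_fst, fun hD => ?_⟩
  borelize (ℕ → ℕ)
  obtain ⟨H, hH, hHD⟩ := exists_closed_of_analytic hD.compl.analyticSet
  classical
  let c : ℕ → ℕ := fun n => if Disjoint (V n) H then 0 else 1
  have key : ∀ γ, (c, γ) ∈ F ↔ (c, γ) ∈ H := by
    intro γ
    constructor
    · intro h
      by_contra hcon
      obtain ⟨_, ⟨n, rfl⟩, h2, h3⟩ := hV.exists_subset_of_mem_open hcon hH.isOpen_compl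
      exact h n (by simpa [c] using Set.subset_compl_iff_disjoint_right.mp h3) h2
    · intro h n hn h2
      have h3 : Disjoint (V n) H := by simpa [c] using hn
      exact Set.disjoint_left.mp h3 h2 h
  have key2 : c ∈ Prod.fst '' F ↔ c ∈ Prod.fst '' H := by
    simp only [Set.mem_image, Prod.exists, exists_and_right, exists_eq_right, key]
  rw [hHD] at key2
  exact iff_not_self key2

end Pool.Agent.P.MP_0bef39_lc
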