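import Pool.Agent.P.MP_0bef39_lc.Coding

/-!
A coding of analytic sets that only needs countably many integer coordinates.
-/

namespace Pool.Agent.P.MP_0bef39_lc

open Set Metric Filter Topology MeasureTheory PiNat

universe u

/-- The prime attached to a node. -/
def pr (σ : List ℕ) : ℤ := if Even σ.length then 3 else 2

/-- The modulus attached to a node. -/
def md : List ℕ → ℤ
  | [] => 2
  | k :: σ => pr σ ^ k

/-- The input of a node. -/
def inp (x : List ℕ → ℤ) (e : ℤ) : List ℕ → ℤ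
  | [] => e
  | _ :: σ => md σ * x σ - inp x e σ

theorem two_le_pr (σ : List ℕ) : 2 ≤ pr σ := by
  unfold pr; split_ifs <;> norm_num

theorem coprime_md (σ : List ℕ) (b : ℕ) : IsCoprime (md σ) (pr σ ^ b) := by
  have h23 : IsCoprime (2 : ℤ) 3 := ⟨-1, 1, by norm_num⟩
  refine IsCoprime.pow_right ?_
  cases σ with
  | nil => simpa [md, pr] using h23
  | cons k σ =>
    refine IsCoprime.pow_left ?_
    unfold pr
    by_cases h : Even σ.length
    · simpa [h, Nat.even_add_one] using h23.symm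
    · simpa [h, Nat.even_add_one] using h23

theorem inp_add (x x' : List ℕ → ℤ) (e e' : ℤ) (τ : List ℕ) :
    inp (x + x') (e + e') τ = inp x e τ + inp x' e' τ := by
  induction τ with
  | nil => rfl
  | cons k σ ih => simp only [inp, ih, Pi.add_apply]; ring

theorem inp_neg (x : List ℕ → ℤ) (e : ℤ) (τ : List ℕ) : inp (-x) (-e) τ = -inp x e τ := by
  induction τ with
  | nil => rfl
  | cons k σ ih => simp only [inp, ih, Pi.neg_apply]; ring

theorem inp_zero (τ : List ℕ) : inp 0 0 τ = 0 := by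
  induction τ with
  | nil => rfl
  | cons k σ ih => simp [inp, ih]

theorem inp_congr {x x' : List ℕ → ℤ} (e : ℤ) (τ : List ℕ) (h : ∀ σ, σ <:+ τ → x σ = x' σ) :
    inp x e τ = inp x' e τ := by
  induction τ with
  | nil => rfl
  | cons k σ ih =>
    simp only [inp]
    rw [h σ (List.suffix_cons k σ), ih fun ρ hρ => h ρ (hρ.trans (List.suffix_cons k σ))]

theorem exists_path (x : List ℕ → ℤ) :
    ∃ κ : ℕ → ℕ, ∀ m, ¬ md (res κ m) ∣ inp x 1 (res κ m) := by
  have h1 : ∀ σ, ¬ md σ ∣ inp x 1 σ → ∃ k, ¬ md (k :: σ) ∣ inp x 1 (k :: σ) := by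
    intro σ h
    set v := md σ * x σ - inp x 1 σ with hv
    have h2 : v ≠ 0 := fun h3 => h ⟨x σ, by linarith⟩
    refine ⟨v.natAbs, fun h3 => h2 (Int.eq_zero_of_abs_lt_dvd h3 ?_)⟩
    calc |v| = (v.natAbs : ℤ) := (Int.natCast_natAbs v).symm
      _ < 2 ^ v.natAbs := by exact_mod_cast Nat.lt_two_pow_self
      _ ≤ pr σ ^ v.natAbs := pow_le_pow_left₀ (by norm_num) (two_le_pr σ) _
  choose! nx hnx using h1
  let L : ℕ → List ℕ := fun n => Nat.rec [] (fun _ σ => nx σ :: σ) n
  have hL : ∀ n, ¬ md (L n) ∣ inp x 1 (L n) := by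
    intro n
    induction n with
    | zero => change ¬ (2 : ℤ) ∣ 1; norm_num
    | succ n ih => exact hnx _ ih
  refine ⟨fun n => nx (L n), fun m => ?_⟩
  have : res (fun n => nx (L n)) m = L m := by
    induction m with
    | zero => rfl
    | succ n ih => rw [res_succ, ih]
  rw [this]
  exact hL m

theorem exists_solution (β : ℕ → ℕ) : ∃ x : List ℕ → ℤ,
    ∀ τ, ¬ md τ ∣ inp x 1 τ → List.Forall₂ (· ≤ ·) (res β τ.length) τ := by
  have h1 : ∀ (σ : List ℕ) (i : ℤ), ∃ c : ℤ, (md σ ∣ i → md σ * c - i = 0) ∧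
      pr σ ^ β σ.length ∣ md σ * c - i := by
    intro σ i
    by_cases h : md σ ∣ i
    · obtain ⟨c, rfl⟩ := h
      exact ⟨c, fun _ => sub_self _, by simp⟩
    · obtain ⟨a, b, hab⟩ := coprime_md σ (β σ.length)
      refine ⟨a * i, fun h2 => (h h2).elim, -b * i, ?_⟩
      linear_combination i * hab
  choose sol hsol1 hsol2 using h1
  let I : List ℕ → ℤ := fun τ => List.rec 1 (fun _ σ i => md σ * sol σ i - i) τ
  have hI : ∀ τ, inp (fun σ => sol σ (I σ)) 1 τ = I τ := by
    intro τ
    induction τ with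
    | nil => rfl
    | cons k σ ih => simp only [inp, ih]; rfl
  refine ⟨fun σ => sol σ (I σ), fun τ => ?_⟩
  rw [hI]
  induction τ with
  | nil => intro _; simp
  | cons k σ ih =>
    intro h
    change ¬ pr σ ^ k ∣ md σ * sol σ (I σ) - I σ at h
    rw [List.length_cons, res_succ, List.forall₂_cons]
    refine ⟨?_, ih fun h2 => h (by rw [hsol1 σ _ h2]; exact dvd_zero _)⟩
    by_contra h2
    exact h ((pow_dvd_pow _ (by omega)).trans (hsol2 σ (I σ)))

theorem le_of_forall₂ {b κ : ℕ → ℕ} {m : ℕ} (h : List.Forall₂ (· ≤ ·) (res b m) (res κ m)) :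
    ∀ i < m, b i ≤ κ i := by
  induction m with
  | zero => intro i hi; omega
  | succ n ih =>
    rw [res_succ, res_succ, List.forall₂_cons] at h
    intro i hi
    rcases Nat.lt_succ_iff_lt_or_eq.mp hi with h1 | h1
    · exact ih h.2 i h1
    · rw [h1]; exact h.1

/-- A node is alive if some node of the tree lies below it. -/
def alive (F : Set ((ℕ → ℕ) × (ℕ → ℕ))) (α : ℕ → ℕ) (τ : List ℕ) : Prop :=
  ∃ q ∈ F, (∀ i < τ.length, q.1 i = α i) ∧ List.Forall₂ (· ≤ ·) (res q.2 τ.length) τ

theorem mem_of_alive {F : Set ((ℕ → ℕ) × (ℕ → ℕ))} (hF : IsClosed F) {α κ : ℕ → ℕ}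
    (h : ∀ m, alive F α (res κ m)) : ∃ β, (α, β) ∈ F := by
  choose q hq1 hq2 hq3 using h
  simp only [res_length] at hq2 hq3
  have hK : IsCompact (Set.pi Set.univ fun i => Set.Iic (κ i)) :=
    isCompact_univ_pi fun i => (Set.finite_Iic _).isCompact
  obtain ⟨β, -, φ, hφ, hlim⟩ := hK.tendsto_subseq (x := fun m i => min ((q m).2 i) (κ i))
    fun m i _ => Set.mem_Iic.mpr (min_le_right _ _)
  refine ⟨β, hF.mem_of_tendsto (f := q ∘ φ) (b := atTop) ?_
    (Eventually.of_forall fun m => hq1 _)⟩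
  refine (Prod.tendsto_iff _ _).mpr
    ⟨tendsto_pi_nhds.mpr fun i => ?_, tendsto_pi_nhds.mpr fun i => ?_⟩
  · refine tendsto_const_nhds.congr' (eventually_atTop.mpr ⟨i + 1, fun m hm => ?_⟩)
    exact (hq2 (φ m) i (by have := hφ.le_apply (x := m); omega)).symm
  · refine (tendsto_pi_nhds.mp hlim i).congr' (eventually_atTop.mpr ⟨i + 1, fun m hm => ?_⟩)
    exact min_eq_left (le_of_forall₂ (hq3 (φ m)) i (by have := hφ.le_apply (x := m); omega))

/-- The group acts continuously on a compact metrizable space with complete analytic orbit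
relation. -/
def Wild (A : Type u) [AddCommGroup A] [TopologicalSpace A] : Prop :=
  ∃ (Y : Type u) (_ : TopologicalSpace Y) (_ : CompactSpace Y)
    (_ : TopologicalSpace.MetrizableSpace Y) (_ : AddAction A Y),
    ContinuousVAdd A Y ∧
    (∀ D : Set (ℕ → ℕ), AnalyticSet D → ∃ f : (ℕ → ℕ) → Y × Y, Continuous f ∧
      D = f ⁻¹' {p : Y × Y | ∃ g : A, g +ᵥ p.1 = p.2}) ∧
    ¬ @MeasurableSet (Y × Y) (borel (Y × Y)) {p : Y × Y | ∃ g : A, g +ᵥ p.1 = p.2}

theorem Wild.of_surjective {A B : Type u} [AddCommGroup A] [TopologicalSpace A]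
    [AddCommGroup B] [TopologicalSpace B] (φ : A →+ B) (hφ : Continuous φ)
    (hs : Function.Surjective φ) (h : Wild B) : Wild A := by
  obtain ⟨Y, i1, i2, i3, i4, h1, h2⟩ := h
  let i5 : AddAction A Y := AddAction.compHom Y φ
  have e : {p : Y × Y | ∃ g : A, g +ᵥ p.1 = p.2} = {p : Y × Y | ∃ g : B, g +ᵥ p.1 = p.2} := by
    ext p
    exact (hs.exists (p := fun g : B => g +ᵥ p.1 = p.2)).symm
  refine ⟨Y, i1, i2, i3, i5, ⟨?_⟩, by rw [e]; exact h2⟩
  exact (hφ.comp continuous_fst).vadd (continuous_snd (X := A) (Y := Y))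

theorem codingZ {Q : Type u} [SeminormedAddCommGroup Q] [CompleteSpace Q]
    [TopologicalSpace.SeparableSpace Q] {Fr : Type*} [AddCommGroup Fr] (ev : Fr →+ Q)
    (π : ℕ → Fr →+ ℤ) (hy : ∀ j, ∃ r > 0, ∀ a, π j a ≠ 0 → r ≤ ‖ev a‖)
    (hb : ∀ n c, ∃ b, π n b = c ∧ (∀ j < n, π j b = 0) ∧ ‖ev b‖ ≤ (1 / 2) ^ n) :
    Wild Q := by
  choose r0 hr0 hy using hy
  let r : ℕ → ℝ := fun n => Nat.rec 1 (fun n t => min t (r0 n)) n
  have hr : ∀ n, 0 < r n := fun n => by
    induction n with
    | zero => exact one_pos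
    | succ n ih => exact lt_min ih (hr0 n)
  have hanti : Antitone r := antitone_nat_of_succ_le fun n => min_le_left _ _
  have hrr : ∀ j n, j < n → r n ≤ r0 j := fun j n h =>
    (hanti (Nat.succ_le_of_lt h)).trans (min_le_right _ _)
  choose b hb1 hb2 hb3 using hb
  have hconv : ∀ x : ℕ → ℤ, ∃ B : ℕ → Fr, (∀ N, ∀ j < N, π j (B N) = x j) ∧
      ∃ g, Tendsto (fun N => ev (B N)) atTop (𝓝 g) := by
    intro x
    let B : ℕ → Fr := fun N => Nat.rec 0 (fun N a => a + b N (x N - π N a)) N
    have hB : ∀ N, B (N + 1) = B N + b N (x N - π N (B N)) := fun N => rfl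
    refine ⟨B, fun N => ?_, cauchySeq_tendsto_of_complete
      (cauchySeq_of_le_geometric (1 / 2) 1 (by norm_num) fun N => ?_)⟩
    · induction N with
      | zero => intro j hj; omega
      | succ N ih =>
        intro j hj
        rw [hB, map_add]
        rcases Nat.lt_succ_iff_lt_or_eq.mp hj with h | h
        · rw [ih j h, hb2 N _ j h, add_zero]
        · rw [h, hb1]; ring
    · rw [hB, map_add, dist_self_add_right, one_mul]
      exact hb3 _ _
  let e : List ℕ ≃ ℕ := Denumerable.eqv (List ℕ)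
  let co : Fr → List ℕ → ℤ := fun a σ => π (e σ) a
  have hcod : ∀ D : Set (ℕ → ℕ), AnalyticSet D → ∃ f : (ℕ → ℕ) → LipSeq Q × LipSeq Q,
      Continuous f ∧ D = f ⁻¹' {p | ∃ g : Q, g +ᵥ p.1 = p.2} := by
    intro D hD
    obtain ⟨F, hF, rfl⟩ := exists_closed_of_analytic hD
    let S : (ℕ → ℕ) → ℤ → ℕ → Set Fr := fun α c n =>
      {a | ∀ τ : List ℕ, τ.length ≤ n → (∀ σ, σ <:+ τ → e σ < n) → ¬ alive F α τ →
        md τ ∣ inp (co a) c τ}
    have hSadd : ∀ α c c' n a a', a ∈ S α c n → a' ∈ S α c' n → a + a' ∈ S α (c + c') n := by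
      intro α c c' n a a' h h' τ h1 h2 h3
      have : co (a + a') = co a + co a' := funext fun σ => map_add _ _ _
      rw [this, inp_add]
      exact dvd_add (h τ h1 h2 h3) (h' τ h1 h2 h3)
    have hSneg : ∀ α c n a, a ∈ S α c n → -a ∈ S α (-c) n := by
      intro α c n a h τ h1 h2 h3
      have : co (-a) = -co a := funext fun σ => map_neg _ _
      rw [this, inp_neg]
      exact (h τ h1 h2 h3).neg_right
    let w : ℤ → (ℕ → ℕ) → LipSeq Q := fun c α => ofSets fun n => ev '' S α c n
    have hw : ∀ c, Continuous (w c) := by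
      intro c
      refine LipSeq.continuous_mk fun n x => IsLocallyConstant.continuous ?_
      rw [IsLocallyConstant.iff_eventually_eq]
      intro α
      filter_upwards [(isOpen_cylinder (fun _ => ℕ) α n).mem_nhds (self_mem_cylinder α n)]
        with α' hα'
      change tdist (ev '' S α' c n) x = tdist (ev '' S α c n) x
      congr 2
      ext a
      refine forall₂_congr fun τ hτ => imp_congr_right fun _ => imp_congr_left (not_congr ?_)
      refine exists_congr fun q => and_congr_right fun _ => and_congr_left fun _ => ?_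
      exact forall₂_congr fun i hi => by rw [mem_cylinder_iff.mp hα' i (by omega)]
    refine ⟨fun α => (w 0 α, w 1 α), (hw 0).prodMk (hw 1), Set.ext fun α => ⟨?_, ?_⟩⟩
    · rintro ⟨⟨_, β⟩, hβ, rfl⟩
      rename_i α
      obtain ⟨x, hx⟩ := exists_solution β
      obtain ⟨B, hB, g, hg⟩ := hconv fun j => x (e.symm j)
      refine ⟨g, Subtype.ext (funext fun n => funext fun v => ?_)⟩
      change tdist (ev '' S α 0 n) (v - g) = tdist (ev '' S α 1 n) v
      have h1 : ∀ N, n ≤ N → tdist (ev '' S α 0 n) (v - ev (B N)) = tdist (ev '' S α 1 n) v := by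
        intro N hN
        have h2 : B N ∈ S α 1 n := by
          intro τ _ h3 h4
          rw [inp_congr (x' := x) 1 τ fun σ hσ => by
            simpa using hB N (e σ) (lt_of_lt_of_le (h3 σ hσ) hN)]
          by_contra h5
          exact h4 ⟨(α, β), hβ, fun _ _ => rfl, hx τ h5⟩
        rw [← tdist_image]
        congr 1
        ext v
        constructor
        · rintro ⟨_, ⟨a, ha, rfl⟩, rfl⟩
          exact ⟨a + B N, by simpa using hSadd _ _ _ _ _ _ ha h2, map_add _ _ _⟩
        · rintro ⟨a, ha, rfl⟩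
          exact ⟨_, ⟨a + -B N, by simpa using hSadd _ _ _ _ _ _ ha (hSneg _ _ _ _ h2), rfl⟩,
            by simp⟩
      have h3 := (((w 0 α).continuous_val n).tendsto (v - g)).comp (hg.const_sub v)
      exact tendsto_nhds_unique h3
        (tendsto_const_nhds.congr' (eventually_atTop.mpr ⟨n, fun N hN => (h1 N hN).symm⟩))
    · rintro ⟨g, hg⟩
      have h1 : ∀ n, ∃ a ∈ S α 1 n, ‖g - ev a‖ < r n / 2 := by
        intro n
        have h2 : tdist (ev '' S α 0 n) (g - g) = tdist (ev '' S α 1 n) g :=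
          congrFun (congrFun (congrArg Subtype.val hg) n) g
        have h0 : (0 : Q) ∈ ev '' S α 0 n := by
          refine ⟨0, fun τ _ _ _ => ?_, map_zero _⟩
          have : co 0 = 0 := funext fun σ => map_zero _
          rw [this, inp_zero]
          exact dvd_zero _
        rw [sub_self, tdist_of_mem h0] at h2
        obtain ⟨_, ⟨a, ha, rfl⟩, h3⟩ := exists_of_tdist h2.symm (half_pos (hr n))
        exact ⟨a, ha, h3⟩
      choose a ha1 ha2 using h1
      have h2 : ∀ j n, j < n → π j (a n) = π j (a (j + 1)) := by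
        intro j n hj
        by_contra hcon
        have h2 := hy j (a n - a (j + 1)) (by rw [map_sub]; exact sub_ne_zero.mpr hcon)
        have h3 : ev (a n - a (j + 1)) = (g - ev (a (j + 1))) - (g - ev (a n)) := by
          rw [map_sub]; abel
        have h4 := norm_sub_le (g - ev (a (j + 1))) (g - ev (a n))
        rw [h3] at h2
        linarith [ha2 n, ha2 (j + 1), hrr j n hj, hrr j (j + 1) (by omega)]
      obtain ⟨κ, hκ⟩ := exists_path fun σ => π (e σ) (a (e σ + 1))
      obtain ⟨β, hβ⟩ := mem_of_alive hF (α := α) (κ := κ) fun m => by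
        by_contra hcon
        obtain ⟨n, hn⟩ := ((List.finite_toSet (res κ m).tails).image e).bddAbove
        have h3 : ∀ σ, σ <:+ res κ m → e σ < n + m + 1 := fun σ hσ => by
          have := hn ⟨σ, (List.mem_tails _ _).mpr hσ, rfl⟩
          omega
        have h4 := ha1 (n + m + 1) (res κ m) (by rw [res_length]; omega) h3 hcon
        rw [inp_congr (x' := fun σ => π (e σ) (a (e σ + 1))) 1 _
          fun σ hσ => h2 _ _ (h3 σ hσ)] at h4
        exact hκ m h4
      exact ⟨(α, β), hβ, rfl⟩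
  refine ⟨LipSeq Q, inferInstance, inferInstance, LipSeq.metrizable, inferInstance, inferInstance,
    hcod, fun hE => ?_⟩
  obtain ⟨D, hD1, hD2⟩ := exists_analytic_not_borel
  obtain ⟨f, hf, rfl⟩ := hcod D hD1
  exact hD2 (hf.borel_measurable hE)

end Pool.Agent.P.MP_0bef39_lc
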