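import Pool.Agent.P.MP_0bef39_lc.Tail
import Pool.Agent.P.MP_0bef39_lc.CodingZ

/-!
A closed subgroup containing a null sequence whose tail spans shrink to zero is wild.
-/

namespace Pool.Agent.P.MP_0bef39_lc

open Set Metric Filter Topology Finsupp

universe u

theorem exists_pos_le (f : ℕ → ℝ) (hf : ∀ i, 0 < f i) (k : ℕ) : ∃ r > 0, ∀ i ≤ k, r ≤ f i := by
  obtain ⟨i, -, hi⟩ := (Finset.range (k + 1)).exists_min_image f ⟨0, by simp⟩
  exact ⟨f i, hf i, fun j hj => hi j (Finset.mem_range.mpr (by omega))⟩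

variable {X : Type u} [NormedAddCommGroup X] [CompleteSpace X] [SecondCountableTopology X]

theorem wild_of (G : AddSubgroup X) (hG : IsClosed (G : Set X)) (y : ℕ → X) (hy : ∀ s, y s ∈ G)
    (π : ℕ → (ℕ →₀ ℤ) →+ ℤ)
    (h1 : ∀ j, ∃ r > 0, ∀ a, π j a ≠ 0 → r ≤ ‖linearCombination ℤ y a‖)
    (h2 : ∀ n c, ∃ b, π n b = c ∧ (∀ j < n, π j b = 0) ∧ ‖linearCombination ℤ y b‖ ≤ (1 / 2) ^ n) :
    Wild G := by
  have : CompleteSpace G := hG.completeSpace_coe
  have he : ∀ a, ‖(linearCombination ℤ fun s => (⟨y s, hy s⟩ : G)).toAddMonoidHom a‖ =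
      ‖linearCombination ℤ y a‖ := by
    intro a
    change ‖((linearCombination ℤ (fun s => (⟨y s, hy s⟩ : G)) a : G) : X)‖ = _
    rw [linearCombination_apply, linearCombination_apply, Finsupp.sum, Finsupp.sum,
      AddSubgroup.val_finsetSum]
    rfl
  exact codingZ (linearCombination ℤ fun s => (⟨y s, hy s⟩ : G)).toAddMonoidHom π
    (by simpa only [he] using h1) (by simpa only [he] using h2)

variable [Module ℝ X] {z : ℕ → X}

theorem caseA (hm : Mono X) (G : AddSubgroup X) (hG : IsClosed (G : Set X)) (hzG : ∀ j, z j ∈ G)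
    (hz : ∀ j, ‖z j‖ ≤ (1 / 2) ^ j) (hmin : ∀ j, 0 < dd z (j + 1) (z j))
    (h : ∀ δ > 0, ∀ I, ∃ j ≥ I, ∀ t : ℝ, dd z (j + 1) (t • z j) < δ) : Wild G := by
  obtain ⟨φ, hφ, h1⟩ := extraction_forall_of_frequently
    (P := fun n k => n + 1 ≤ k ∧ ∀ t : ℝ, dd z (k + 1) (t • z k) < (1 / 2) ^ n / 2) fun n =>
    frequently_atTop.mpr fun I => by
      obtain ⟨j, h1, h2⟩ := h ((1 / 2) ^ n / 2) (by positivity) (max I (n + 1))
      exact ⟨j, le_of_max_le_left h1, le_of_max_le_right h1, h2⟩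
  refine wild_of G hG z hzG (fun n => applyAddHom (φ n)) (fun j => ?_) fun n c => ?_
  · obtain ⟨r, hr, h2⟩ := exists_pos_le _ hmin (φ j)
    refine ⟨r, hr, fun a ha => ?_⟩
    have hex : ∃ i, a i ≠ 0 := ⟨_, ha⟩
    classical
    have h3 := dd_first (z := z) a (j := Nat.find hex) fun i hi => by
      simpa using Nat.find_min hex hi
    have h4 := dd_smul_mono (z := z) hm (Nat.find hex + 1) (s := 1) (t := a (Nat.find hex))
      (by rw [abs_one, ← Int.cast_abs]; exact_mod_cast Int.one_le_abs (Nat.find_spec hex))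
      (z (Nat.find hex))
    rw [one_smul, Int.cast_smul_eq_zsmul] at h4
    exact (h2 _ (Nat.find_min' hex ha)).trans (h4.trans (h3.trans (dd_le_norm _ _)))
  · obtain ⟨y, h2, h3⟩ := dd_lt ((h1 n).2 c)
    obtain ⟨a, h4, h5⟩ := exists_round hm hz h2
    refine ⟨single (φ n) c - a, by simp [h4], fun j hj => ?_, ?_⟩
    · have := hφ hj
      simp [h4 (φ j) (by omega), single_eq_of_ne this.ne]
    · rw [map_sub, linearCombination_single]
      rw [Int.cast_smul_eq_zsmul] at h3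
      have h6 := norm_sub_le_norm_sub_add_norm_sub (c • z (φ n)) y (linearCombination ℤ z a)
      have h7 : ((1 : ℝ) / 2) ^ φ n ≤ (1 / 2) ^ (n + 1) :=
        pow_le_pow_of_le_one (by norm_num) (by norm_num) (h1 n).1
      rw [pow_succ] at h5 h7
      linarith

omit [CompleteSpace X] [SecondCountableTopology X] in
theorem lc_mem {y : ℕ → X} (M : Submodule ℝ X) (a : ℕ →₀ ℤ) (h : ∀ i, a i ≠ 0 → y i ∈ M) :
    linearCombination ℤ y a ∈ M := by
  rw [linearCombination_apply]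
  exact Submodule.sum_mem _ fun i hi => Submodule.smul_of_tower_mem _ _ (h i (mem_support_iff.mp hi))

variable [ContinuousSMul ℝ X]

theorem caseB (hm : Mono X) (G : AddSubgroup X) (hG : IsClosed (G : Set X)) (hzG : ∀ j, z j ∈ G)
    (hz : ∀ j, ‖z j‖ ≤ (1 / 2) ^ j) (hY : ∀ v, (∀ J, v ∈ closure (tl z J : Set X)) → v = 0)
    {γ : ℝ} (hγ : 0 < γ) {I : ℕ} (h : ∀ j ≥ I, ∃ t : ℝ, γ ≤ dd z (j + 1) (t • z j)) :
    Wild G := by
  have hbig : ∀ J, ∃ y ∈ tl z J, γ ≤ ‖y‖ := fun J => by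
    obtain ⟨t, ht⟩ := h (max I J) (le_max_left _ _)
    exact ⟨_, (tl z J).smul_mem t (mem_tl (le_max_right I J)), ht.trans (dd_le_norm _ _)⟩
  have hnz : ∀ x ∈ tl z I, x ≠ 0 → ∃ (J : ℕ) (t : ℝ), γ ≤ dd z J (t • x) := by
    intro x hx hx0
    obtain ⟨c, hc, rfl⟩ := (mem_span_image_iff_linearCombination ℝ).mp hx
    have hex : ∃ i, c i ≠ 0 := by
      by_contra hcon
      push Not at hcon
      exact hx0 (by rw [show c = 0 from Finsupp.ext hcon, map_zero])
    classical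
    have h1 := Nat.find_spec hex
    obtain ⟨t, ht⟩ := h (Nat.find hex) ((mem_supported ℝ c).mp hc (mem_support_iff.mpr h1))
    refine ⟨Nat.find hex + 1, t / c (Nat.find hex), ?_⟩
    have h3 := dd_first (z := z) ((t / c (Nat.find hex)) • c) (j := Nat.find hex) fun i hi => by
      have : c i = 0 := by simpa using Nat.find_min hex hi
      simp [this]
    rw [map_smul, Finsupp.smul_apply, smul_eq_mul, div_mul_cancel₀ _ h1] at h3
    exact ht.trans h3
  have h1 : ∀ l : ℕ, ∃ κ > 0, κ ≤ γ ∧ ∀ J, ∃ y ∈ G, y ∈ tl z J ∧ ‖y‖ ≤ (1 / 2) ^ l ∧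
      κ ≤ tn z y := by
    intro l
    obtain ⟨κ, h1, h2⟩ := claim hm hz hY hγ hbig (η := (1 / 2) ^ l) (by positivity)
    refine ⟨min κ γ, lt_min h1 hγ, min_le_right _ _, fun J => ?_⟩
    obtain ⟨a, h3, h4, h5⟩ := h2 J
    refine ⟨_, ?_, lc_mem_tl a h3, h4, (min_le_left _ _).trans h5⟩
    rw [linearCombination_apply]
    exact G.sum_mem fun i _ => G.zsmul_mem (hzG i) _
  choose κ hκ0 hκ1 hκ2 using h1
  let e : ℕ × ℤ ≃ ℕ := Denumerable.eqv (ℕ × ℤ)
  let l : ℕ → ℕ := fun s => (e.symm s).1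
  choose δ hδ0 hδ using exists_pos_le (fun t => κ (l t) / 8) fun t => by linarith [hκ0 (l t)]
  have : Inhabited X := ⟨0⟩
  obtain ⟨w, hw⟩ := exists_rec (α := ℕ × X) (fun s w v => I ≤ v.1 ∧ (∀ t < s, (w t).1 ≤ v.1) ∧
      ((∀ t < s, (w t).2 ∈ tl z I) → ∀ x ∈ Submodule.span ℝ ((fun t => (w t).2) '' Iio s),
        dd z v.1 x < γ / 2 → tn z x ≤ dd z v.1 x + δ s) ∧
      v.2 ∈ G ∧ v.2 ∈ tl z v.1 ∧ ‖v.2‖ ≤ (1 / 2) ^ l s ∧ κ (l s) ≤ tn z v.2)
    (fun s w => by
      obtain ⟨B, hB⟩ := ((finite_Iio s).image fun t => (w t).1).bddAbove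
      obtain ⟨J, hJ⟩ : ∃ J, (∀ t < s, (w t).2 ∈ tl z I) →
          ∀ x ∈ Submodule.span ℝ ((fun t => (w t).2) '' Iio s),
          dd z J x < γ / 2 → tn z x ≤ dd z J x + δ s := by
        by_cases h2 : ∀ t < s, (w t).2 ∈ tl z I
        · have := FiniteDimensional.span_of_finite ℝ ((finite_Iio s).image fun t => (w t).2)
          obtain ⟨J, hJ⟩ := unif (z := z) hm (Submodule.span ℝ ((fun t => (w t).2) '' Iio s)) hγ
            (hδ0 s) fun x hx => hnz x (Submodule.span_le.mpr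
              (by rintro _ ⟨t, ht, rfl⟩; exact h2 t ht) hx)
          exact ⟨J, fun _ => hJ⟩
        · exact ⟨0, fun h3 => (h2 h3).elim⟩
      obtain ⟨y, h2⟩ := hκ2 (l s) (max (max I B) J)
      refine ⟨(max (max I B) J, y), le_max_of_le_left (le_max_left _ _),
        fun t ht => le_max_of_le_left (le_max_of_le_right (hB ⟨t, ht, rfl⟩)),
        fun h3 x hx h4 => ?_, h2⟩
      have h5 := dd_mono (z := z) (le_max_right (max I B) J) x
      linarith [hJ h3 x hx (h5.trans_lt h4)])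
    (by
      rintro s w w' v hw ⟨h1, h2, h3, h4⟩
      refine ⟨h1, fun t ht => hw t ht ▸ h2 t ht, fun h5 => ?_, h4⟩
      rw [← image_congr (f := fun t => (w t).2) fun t ht => by rw [hw t ht]]
      exact h3 fun t ht => hw t ht ▸ h5 t ht)
  let y : ℕ → X := fun s => (w s).2
  let J : ℕ → ℕ := fun s => (w s).1
  have hyI : ∀ t, y t ∈ tl z I := fun t => tl_anti (hw t).1 (hw t).2.2.2.2.1
  have hU : ∀ s, ∀ x ∈ Submodule.span ℝ (y '' Iio s), dd z (J s) x < γ / 2 →
      tn z x ≤ dd z (J s) x + δ s := fun s => (hw s).2.2.1 fun t _ => hyI t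
  have hlow : ∀ (a : ℕ →₀ ℤ) s, a s ≠ 0 → κ (l s) / 4 ≤ ‖linearCombination ℤ y a‖ := by
    intro a s ha
    classical
    have hdec : a = a.filter (· < s) + single s (a s) + a.filter (s < ·) := by
      ext i
      rcases lt_trichotomy i s with h1 | h1 | h1
      · simp [h1, h1.le, single_eq_of_ne h1.ne]
      · simp [h1]
      · simp [h1, h1.le, single_eq_of_ne h1.ne']
    set x₁ := linearCombination ℤ y (a.filter (· < s))
    set x₂ := linearCombination ℤ y (a.filter (s < ·))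
    have h1 : x₁ ∈ Submodule.span ℝ (y '' Iio s) := lc_mem _ _ fun i hi =>
      Submodule.subset_span ⟨i, by by_contra h2; simp [show ¬ i < s from h2] at hi, rfl⟩
    have h2 : x₂ ∈ tl z (J (s + 1)) := lc_mem _ _ fun i hi => by
      have h3 : s < i := by by_contra h2; simp [h2] at hi
      refine tl_anti ?_ (hw i).2.2.2.2.1
      rcases (Nat.succ_le_of_lt h3).eq_or_lt with h4 | h4
      · exact le_of_eq (congrArg J h4)
      · exact (hw i).2.1 _ h4
    have ha' : (a s : ℝ) ≠ 0 := by exact_mod_cast ha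
    set t : ℝ := (a s : ℝ)⁻¹
    have ht : |t| ≤ 1 := by
      rw [abs_inv]
      refine inv_le_one_of_one_le₀ ?_
      rw [← Int.cast_abs]; exact_mod_cast Int.one_le_abs ha
    have h3 : t • linearCombination ℤ y a = (t • x₁ + y s) + t • x₂ := by
      conv_lhs => rw [hdec, map_add, map_add, linearCombination_single]
      rw [smul_add, smul_add, ← Int.cast_smul_eq_zsmul ℝ (a s), smul_smul, inv_mul_cancel₀ ha',
        one_smul]
    have h4 : dd z (J (s + 1)) (t • x₁ + y s) ≤ ‖linearCombination ℤ y a‖ :=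
      (dd_le_add_mem _ ((tl z _).smul_mem t h2)).trans
        (h3 ▸ (dd_le_norm _ _).trans (hm t _ ht))
    by_contra hcon
    have h5 : dd z (J s) (t • x₁) ≤ dd z (J (s + 1)) (t • x₁ + y s) :=
      (dd_le_add_mem _ (hw s).2.2.2.2.1).trans (dd_mono ((hw (s + 1)).2.1 s (by omega)) _)
    have h6 := hκ1 (l s)
    have h7 := hU s _ (Submodule.smul_mem _ t h1) (by linarith)
    have h8 := hU (s + 1) (t • x₁ + y s) (Submodule.add_mem _
      (Submodule.smul_mem _ t (Submodule.span_mono (image_mono (Iio_subset_Iio (by omega))) h1))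
      (Submodule.subset_span ⟨s, by simp, rfl⟩)) (by linarith)
    have h9 := tn_sub_le (z := z) (t • x₁ + y s) (t • x₁)
    rw [add_sub_cancel_left] at h9
    have h10 : κ (l s) ≤ tn z (y s) := (hw s).2.2.2.2.2.2
    linarith [hδ s s le_rfl, hδ (s + 1) s (by omega), hκ0 (l s)]
  refine wild_of G hG y (fun s => (hw s).2.2.2.1)
    (fun n => (linearCombination ℤ fun s => if l s = n then (e.symm s).2 else 0).toAddMonoidHom)
    (fun j => ⟨κ j / 4, by linarith [hκ0 j], fun a ha => ?_⟩) fun n c => ?_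
  · obtain ⟨s, h1, h2⟩ := Finset.exists_ne_zero_of_sum_ne_zero (s := a.support) ha
    have h3 : l s = j := by by_contra h3; simp [h3] at h2
    exact h3 ▸ hlow a s (mem_support_iff.mp h1)
  · refine ⟨single (e (n, c)) 1, by simp [l], fun j hj => by simp [l, hj.ne'], ?_⟩
    simpa [l] using (hw (e (n, c))).2.2.2.2.2.1

theorem core (hm : Mono X) (G : AddSubgroup X) (hG : IsClosed (G : Set X)) (hzG : ∀ j, z j ∈ G)
    (hz0 : ∀ j, z j ≠ 0) (hz : ∀ j, ‖z j‖ ≤ (1 / 2) ^ j)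
    (hY : ∀ v, (∀ J, v ∈ closure (tl z J : Set X)) → v = 0) : Wild G := by
  have h1 : ∀ j, ∃ J, j < J ∧ z j ∉ closure (tl z J : Set X) := by
    intro j
    obtain ⟨J, hJ⟩ := not_forall.mp fun h => hz0 j (hY _ h)
    exact ⟨max J (j + 1), by omega, fun h => hJ (closure_mono (tl_anti (le_max_left _ _)) h)⟩
  choose nx h1 h2 using h1
  let φ : ℕ → ℕ := fun n => Nat.rec 0 (fun _ j => nx j) n
  have hφ : StrictMono φ := strictMono_nat_of_lt_succ fun n => h1 _
  have h3 : ∀ J, tl (z ∘ φ) J ≤ tl z (φ J) := fun J => Submodule.span_le.mpr (by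
    rintro _ ⟨j, hj, rfl⟩
    exact mem_tl (hφ.monotone hj))
  have hz' : ∀ j, ‖(z ∘ φ) j‖ ≤ (1 / 2) ^ j := fun j =>
    (hz _).trans (pow_le_pow_of_le_one (by norm_num) (by norm_num) hφ.le_apply)
  by_cases h : ∀ δ > 0, ∀ I, ∃ j ≥ I, ∀ t : ℝ, dd (z ∘ φ) (j + 1) (t • (z ∘ φ) j) < δ
  · refine caseA hm G hG (fun j => hzG _) hz' (fun j => ?_) h
    refine lt_of_le_of_ne (dd_nonneg _ _) fun h4 => h2 (φ j) (closure_mono (h3 (j + 1)) ?_)
    exact (mem_closure_iff_infDist_zero ⟨0, (tl _ _).zero_mem⟩).mpr h4.symm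
  · push Not at h
    obtain ⟨γ, hγ, I, h⟩ := h
    exact caseB hm G hG (fun j => hzG _) hz' (fun v hv => hY v fun J =>
      closure_mono ((h3 J).trans (tl_anti hφ.le_apply)) (hv J)) hγ h

end Pool.Agent.P.MP_0bef39_lc
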