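import Pool.Agent.P.MP_0bef39_lc.Miller

/-!
A lattice in a power series space, realised inside a countable power of the Hilbert space.
-/

namespace Pool.Agent.P.MP_0bef39_lc

open Set Filter Topology

theorem exists_numbers : ∃ N R : ℕ → ℕ, (∀ k, (N k).Prime) ∧ Function.Injective N ∧
    (∀ K l, K ≤ l → ∏ i ∈ Finset.range K, N i ≤ R l) ∧ (∀ k, 2 ^ k ≤ R k) ∧
    ∀ k, 4 * R k ^ (k + 1) ≤ N k := by
  choose nx h1 h2 using Nat.exists_infinite_primes
  let P : ℕ → ℕ := fun k => Nat.rec 1 (fun k p => p * nx (4 * (2 ^ k * p) ^ (k + 1))) k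
  let N : ℕ → ℕ := fun k => nx (4 * (2 ^ k * P k) ^ (k + 1))
  have hP : ∀ k, ∏ i ∈ Finset.range k, N i = P k := fun k => by
    induction k with
    | zero => rfl
    | succ k ih => rw [Finset.prod_range_succ, ih]
  have hP0 : ∀ k, 0 < P k := fun k => by
    rw [← hP]; exact Finset.prod_pos fun i _ => (h2 _).pos
  have hPm : Monotone P := monotone_nat_of_le_succ fun k => Nat.le_mul_of_pos_right _ (h2 _).pos
  have hR : ∀ k, P k ≤ 2 ^ k * P k := fun k => Nat.le_mul_of_pos_left _ (by positivity)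
  refine ⟨N, fun k => 2 ^ k * P k, fun k => h2 _, (strictMono_nat_of_lt_succ fun k => ?_).injective,
    fun K l h => ?_, fun k => Nat.le_mul_of_pos_right _ (hP0 k), fun k => h1 _⟩
  · have h3 : N k ≤ P (k + 1) := Nat.le_mul_of_pos_left _ (hP0 k)
    have h4 : 2 ^ (k + 1) * P (k + 1) ≤ (2 ^ (k + 1) * P (k + 1)) ^ (k + 1 + 1) :=
      Nat.le_self_pow (by omega) _
    have h5 : 4 * (2 ^ (k + 1) * P (k + 1)) ^ (k + 1 + 1) ≤ N (k + 1) := h1 _
    have h6 := hR (k + 1)
    have h7 := hP0 (k + 1)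
    omega
  · rw [hP]; exact (hPm h).trans (hR l)

/-- The primes. -/
noncomputable def NN : ℕ → ℕ := exists_numbers.choose

/-- The ratios. -/
noncomputable def RR : ℕ → ℕ := exists_numbers.choose_spec.choose

theorem NN_prime (k : ℕ) : (NN k).Prime := exists_numbers.choose_spec.choose_spec.1 k
theorem NN_inj : Function.Injective NN := exists_numbers.choose_spec.choose_spec.2.1
theorem prod_le_RR (K l : ℕ) (h : K ≤ l) : ∏ i ∈ Finset.range K, NN i ≤ RR l :=
  exists_numbers.choose_spec.choose_spec.2.2.1 K l h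
theorem pow_le_RR (k : ℕ) : 2 ^ k ≤ RR k := exists_numbers.choose_spec.choose_spec.2.2.2.1 k
theorem RR_le_NN (k : ℕ) : 4 * RR k ^ (k + 1) ≤ NN k :=
  exists_numbers.choose_spec.choose_spec.2.2.2.2 k

theorem NN_pos (k : ℕ) : (0 : ℝ) < NN k := by exact_mod_cast (NN_prime k).pos
theorem one_le_RR (k : ℕ) : (1 : ℝ) ≤ RR k := by
  exact_mod_cast (Nat.one_le_two_pow.trans (pow_le_RR k))

/-- The weights. -/
noncomputable def wt (m k : ℕ) : ℝ := (RR k : ℝ) ^ m / NN k

theorem wt_pos (m k : ℕ) : 0 < wt m k := div_pos (pow_pos (by linarith [one_le_RR k]) _) (NN_pos k)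

theorem wt_succ (m k : ℕ) : wt (m + 1) k = RR k * wt m k := by unfold wt; ring

theorem wt_le {m k : ℕ} (h : m ≤ k + 1) : wt m k ≤ 1 / 4 := by
  unfold wt
  rw [div_le_iff₀ (NN_pos k)]
  have h1 : (4 : ℝ) * RR k ^ (k + 1) ≤ NN k := by exact_mod_cast RR_le_NN k
  have h2 := pow_le_pow_right₀ (one_le_RR k) h
  linarith

theorem mul_wt_le {m k : ℕ} {t c : ℝ} (ht : 0 ≤ c) (h : t * wt (m + 1) k ≤ c) :
    t * wt m k ≤ c * (1 / 2) ^ k := by
  have h1 : (2 : ℝ) ^ k ≤ RR k := by exact_mod_cast pow_le_RR k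
  rw [one_div, inv_pow, ← div_eq_mul_inv, le_div_iff₀ (by positivity)]
  rcases le_total t 0 with h2 | h2
  · have := mul_nonpos_of_nonpos_of_nonneg h2 (wt_pos m k).le
    have := mul_nonpos_of_nonpos_of_nonneg this (by positivity : (0 : ℝ) ≤ 2 ^ k)
    linarith
  · rw [wt_succ] at h
    have := mul_le_mul_of_nonneg_left h1 (mul_nonneg h2 (wt_pos m k).le)
    linarith

/-- The ambient space. -/
abbrev XX : Type := ℕ → lp (fun _ : ℕ => ℝ) 2

instance : SecondCountableTopology (lp (fun _ : ℕ => ℝ) 2) := by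
  have h1 : TopologicalSpace.IsSeparable (closure (Submodule.span ℝ
      (range fun k : ℕ => (lp.single 2 k (1 : ℝ) : lp (fun _ : ℕ => ℝ) 2)) :
        Set (lp (fun _ : ℕ => ℝ) 2))) :=
    (countable_range _).isSeparable.span.closure
  have h2 : TopologicalSpace.SeparableSpace (lp (fun _ : ℕ => ℝ) 2) := by
    rw [← TopologicalSpace.isSeparable_univ_iff]
    refine h1.mono fun f _ => mem_closure_of_tendsto
      (lp.hasSum_single (by norm_num) f).tendsto_sum_nat (Eventually.of_forall fun n => ?_)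
    refine Submodule.sum_mem _ fun k _ => ?_
    rw [show f k = f k • (1 : ℝ) by simp, lp.single_smul]
    exact Submodule.smul_mem _ _ (Submodule.subset_span ⟨k, rfl⟩)
  infer_instance

/-- `F` has integer coefficients `a`. -/
def Co (F : XX) (a : ℕ → ℤ) : Prop := ∀ m k, F m k = a k * wt m k

/-- Elements whose coefficients are integers divisible by `D k`. -/
def GG (D : ℕ → ℤ) : AddSubgroup XX where
  carrier := {F | ∃ a, (∀ k, D k ∣ a k) ∧ Co F a}
  add_mem' := by
    rintro F F' ⟨a, h1, h2⟩ ⟨a', h3, h4⟩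
    exact ⟨a + a', fun k => dvd_add (h1 k) (h3 k), fun m k => by simp [h2 m k, h4 m k, add_mul]⟩
  zero_mem' := ⟨0, fun k => dvd_zero _, fun m k => by simp⟩
  neg_mem' := by
    rintro F ⟨a, h1, h2⟩
    exact ⟨-a, fun k => (h1 k).neg_right, fun m k => by simp [h2 m k]⟩

/-- The lattice. -/
abbrev Gr : AddSubgroup XX := GG fun _ => 1

/-- The discrete subgroup. -/
noncomputable abbrev Ga : AddSubgroup XX := GG fun k => NN k

theorem Ga_le : Ga ≤ Gr := fun _ ⟨a, _, h⟩ => ⟨a, fun _ => one_dvd _, h⟩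

/-- The coefficient functionals. -/
noncomputable def co (F : XX) (k : ℕ) : ℤ := ⌊F 0 k * NN k⌋

theorem Co.eq {F : XX} {a : ℕ → ℤ} (h : Co F a) : co F = a := by
  funext k
  unfold co
  rw [h 0 k, wt, pow_zero, mul_assoc, one_div, inv_mul_cancel₀ (NN_pos k).ne', mul_one,
    Int.floor_intCast]

theorem Co.of_mem {F : XX} (h : F ∈ Gr) : Co F (co F) := by
  obtain ⟨a, -, h⟩ := h
  rwa [h.eq]

theorem Co.mem {F : XX} {a : ℕ → ℤ} (h : Co F a) : F ∈ Gr := ⟨a, fun _ => one_dvd _, h⟩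

theorem Co.sub {F F' : XX} {a a' : ℕ → ℤ} (h : Co F a) (h' : Co F' a') : Co (F - F') (a - a') :=
  fun m k => by simp [h m k, h' m k, sub_mul]

theorem Co.zsmul {F : XX} {a : ℕ → ℤ} (h : Co F a) (c : ℤ) : Co (c • F) (c • a) :=
  fun m k => by simp [h m k, mul_assoc]

theorem Co.ext {F F' : XX} {a : ℕ → ℤ} (h : Co F a) (h' : Co F' a) : F = F' :=
  funext fun m => lp.ext (funext fun k => (h m k).trans (h' m k).symm)

theorem continuous_coord (m k : ℕ) : Continuous fun F : XX => F m k :=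
  (lp.lipschitzWith_one_eval 2 k).continuous.comp (continuous_apply m)

theorem isClosed_Gr : IsClosed (Gr : Set XX) := by
  have : (Gr : Set XX) = (⋂ k, {F : XX | (F 0 k : ℝ) * (NN k : ℝ) ∈ range ((↑) : ℤ → ℝ)}) ∩
      ⋂ m, ⋂ k, {F | F m k = F 0 k * NN k * wt m k} := by
    ext F
    simp only [mem_inter_iff, mem_iInter, mem_ofPred_eq]
    constructor
    · rintro ⟨a, -, h⟩
      have h1 : ∀ k, F 0 k * NN k = a k := fun k => by
        rw [h 0 k, wt, pow_zero, mul_assoc, one_div, inv_mul_cancel₀ (NN_pos k).ne', mul_one]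
      exact ⟨fun k => ⟨a k, (h1 k).symm⟩, fun m k => by rw [h1, h m k]⟩
    · rintro ⟨h1, h2⟩
      choose a ha using h1
      exact Co.mem (a := a) fun m k => by rw [ha, h2]
  rw [this]
  refine IsClosed.inter (isClosed_iInter fun k => ?_)
    (isClosed_iInter fun m => isClosed_iInter fun k => isClosed_eq (continuous_coord m k)
      (((continuous_coord 0 k).mul continuous_const).mul continuous_const))
  exact Int.isClosedEmbedding_coe_real.isClosed_range.preimage
    ((continuous_coord 0 k).mul continuous_const)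

theorem exists_Co (a : ℕ → ℤ) (h : ∀ m, Memℓp (fun k => (a k : ℝ) * wt m k) 2) :
    ∃ F, Co F a := ⟨fun m => ⟨_, h m⟩, fun _ _ => rfl⟩

theorem Co.exists_le {F : XX} {a : ℕ → ℤ} (h : Co F a) (b : ℕ → ℤ) (hb : ∀ k, |b k| ≤ |a k|) :
    ∃ F', Co F' b := by
  refine exists_Co b fun m => (lp.memℓp (F m)).mono' fun k => ?_
  rw [h m k, norm_mul, norm_mul]
  gcongr
  rw [Real.norm_eq_abs, Real.norm_eq_abs]
  exact_mod_cast hb k

theorem exists_one : ∃ F, Co F 1 := by
  refine exists_Co 1 fun m => Memℓp.of_exponent_ge (q := 1) (memℓp_gen ?_) (by norm_num)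
  refine Summable.of_norm_bounded_eventually_nat (g := fun k => (1 / 2) ^ k)
    summable_geometric_two (eventually_atTop.mpr ⟨m, fun k hk => ?_⟩)
  have := mul_wt_le (t := 1) (m := m) (k := k) zero_le_one (by linarith [wt_le (m := m + 1) (k := k) (by omega)])
  simpa [abs_of_pos (wt_pos m k)] using this

/-- The unit vectors. -/
noncomputable def ee (k : ℕ) : XX := fun m => lp.single 2 k (wt m k)

theorem Co_ee (k : ℕ) : Co (ee k) (Pi.single k 1) := fun m l => by
  by_cases h : l = k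
  · simp [ee, h]
  · simp [ee, h]

/-- The tail of an element. -/
noncomputable def tail (K : ℕ) (F : XX) : XX :=
  fun m => F m - ∑ k ∈ Finset.range K, lp.single 2 k (F m k)

theorem tail_apply (K : ℕ) (F : XX) (m l : ℕ) : tail K F m l = if l < K then 0 else F m l := by
  simp only [tail, lp.coeFn_sub, lp.coeFn_sum, lp.coeFn_single, Pi.sub_apply, Finset.sum_apply,
    Finset.sum_pi_single, Finset.mem_range]
  split_ifs <;> simp

theorem tendsto_tail (F : XX) : Tendsto (fun K => tail K F) atTop (𝓝 0) :=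
  tendsto_pi_nhds.mpr fun m => by
    simpa [tail] using (lp.hasSum_single (by norm_num) (F m)).tendsto_sum_nat.const_sub (F m)

theorem mem_of_mult {S : AddSubgroup XX} (hS : IsClosed (S : Set XX)) (hΓ : Ga ≤ S) {g h : XX}
    {a b : ℕ → ℤ} (hg : g ∈ S) (ha : Co g a) (hb : Co h b)
    (hc : ∀ l, ∃ c : ℕ, (NN l : ℤ) ∣ c * a l - b l) : h ∈ S := by
  choose c hc using hc
  have h1 : ∀ K, ∃ C : ℕ, C < ∏ i ∈ Finset.range K, NN i ∧ ∀ l < K, C ≡ c l [MOD NN l] := by
    intro K
    have h2 : ∀ i ∈ Finset.range K, NN i ≠ 0 := fun i _ => (NN_prime i).ne_zero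
    have h3 : Set.Pairwise (Finset.range K : Set ℕ) (Function.onFun Nat.Coprime NN) :=
      fun i _ j _ hij => (Nat.coprime_primes (NN_prime i) (NN_prime j)).mpr (NN_inj.ne hij)
    exact ⟨_, Nat.chineseRemainderOfFinset_lt_prod c NN h2 h3, fun l hl =>
      (Nat.chineseRemainderOfFinset c NN _ h2 h3).2 l (Finset.mem_range.mpr hl)⟩
  choose C hC1 hC2 using h1
  have h2 : Tendsto (fun K => (C K : ℤ) • tail K g) atTop (𝓝 0) := by
    refine tendsto_pi_nhds.mpr fun m => squeeze_zero_norm (fun K => ?_)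
      (tendsto_zero_iff_norm_tendsto_zero.mp (tendsto_pi_nhds.mp (tendsto_tail g) (m + 1)))
    refine lp.norm_mono (by norm_num) fun l => ?_
    change ‖(C K : ℤ) • tail K g m l‖ ≤ _
    rw [tail_apply, tail_apply]
    split_ifs with h3
    · simp
    · have h4 : (C K : ℝ) ≤ RR l := by
        exact_mod_cast (hC1 K).le.trans (prod_le_RR K l (by omega))
      rw [ha, ha, wt_succ]
      simp only [zsmul_eq_mul, Int.cast_natCast, norm_mul, Real.norm_natCast]
      rw [mul_left_comm]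
      gcongr
  have h3 := ((tendsto_tail h).const_sub h).add h2
  rw [sub_zero, add_zero] at h3
  refine hS.mem_of_tendsto h3 (Eventually.of_forall fun K => ?_)
  have h4 : (C K : ℤ) • g - (h - tail K h + (C K : ℤ) • tail K g) ∈ Ga := by
    refine ⟨fun l => if l < K then C K * a l - b l else 0, fun l => ?_, fun m l => ?_⟩
    · beta_reduce
      split_ifs with h5
      · have h6 := (Int.natCast_modEq_iff.mpr (hC2 K l h5)).symm.dvd
        have := dvd_add (hc l) (h6.mul_right (a l))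
        rwa [show (c l : ℤ) * a l - b l + (C K - c l) * a l = C K * a l - b l by ring] at this
      · exact dvd_zero _
    · change (C K : ℤ) • g m l - (h m l - tail K h m l + (C K : ℤ) • tail K g m l) = _
      rw [tail_apply, tail_apply, ha, hb]
      beta_reduce
      split_ifs <;> simp
      ring
  simpa using S.sub_mem (S.zsmul_mem hg (C K)) (hΓ h4)

theorem mem_of_units {S : AddSubgroup XX} (hS : IsClosed (S : Set XX)) (hΓ : Ga ≤ S) {g : XX}
    {a : ℕ → ℤ} (ha : Co g a) (h : ∀ k, ee k ∈ S ∨ (NN k : ℤ) ∣ a k) : g ∈ S := by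
  have h3 := (tendsto_tail g).const_sub g
  rw [sub_zero] at h3
  refine hS.mem_of_tendsto h3 (Eventually.of_forall fun K => ?_)
  have h1 : g - tail K g = ∑ k ∈ Finset.range K, a k • ee k := by
    funext m
    simp only [tail, Pi.sub_apply, sub_sub_cancel, Finset.sum_apply, Pi.smul_apply, ee]
    refine Finset.sum_congr rfl fun k _ => ?_
    rw [ha, ← Int.cast_smul_eq_zsmul ℝ, ← lp.single_smul, smul_eq_mul]
  rw [h1]
  refine S.sum_mem fun k _ => (h k).elim (fun h2 => S.zsmul_mem h2 _) fun h2 => hΓ ?_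
  refine ⟨_, fun l => ?_, (Co_ee k).zsmul (a k)⟩
  by_cases h3 : l = k
  · simpa [h3] using h2
  · simp [h3]

theorem exists_mul_eq {l : ℕ} {a : ℤ} (ha : ¬ (NN l : ℤ) ∣ a) (b : ℤ) :
    ∃ c : ℕ, (NN l : ℤ) ∣ c * a - b := by
  have := Fact.mk (NN_prime l)
  refine ⟨((b : ZMod (NN l)) / a).val, ?_⟩
  rw [← ZMod.intCast_zmod_eq_zero_iff_dvd] at ha ⊢
  push_cast
  rw [ZMod.natCast_zmod_val, div_mul_cancel₀ _ ha, sub_self]

theorem ee_mem {S : AddSubgroup XX} (hS : IsClosed (S : Set XX)) (hΓ : Ga ≤ S) {g : XX}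
    {a : ℕ → ℤ} (hg : g ∈ S) (ha : Co g a) {k : ℕ} (hk : ¬ (NN k : ℤ) ∣ a k) : ee k ∈ S := by
  refine mem_of_mult hS hΓ hg ha (Co_ee k) fun l => ?_
  by_cases h : l = k
  · rw [h]; exact exists_mul_eq hk _
  · exact ⟨0, by simp [h]⟩

theorem far_of_small {a : ℤ} {k : ℕ} (ha : a.natAbs ≤ NN k / 2) {b : ℤ} (hb : (NN k : ℤ) ∣ a - b) :
    |(a : ℝ)| ≤ |(b : ℝ)| := by
  have := ZMod.natAbs_min_of_le_div_two (NN k) a b
    ((ZMod.intCast_eq_intCast_iff_dvd_sub _ _ _).mpr (by simpa using hb.neg_right)) ha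
  rw [← Int.cast_abs, ← Int.cast_abs, Int.cast_le, Int.abs_eq_natAbs, Int.abs_eq_natAbs]
  exact_mod_cast this

theorem Co.le_norm {F : XX} {a : ℕ → ℤ} (h : Co F a) (m k : ℕ) :
    |(a k : ℝ)| * wt m k ≤ ‖F m‖ := by
  have := lp.norm_apply_le_norm (by norm_num) (F m) k
  rwa [h m k, norm_mul, Real.norm_eq_abs, Real.norm_eq_abs, abs_of_pos (wt_pos m k)] at this

theorem discrete_Ga : DiscreteTopology Ga := by
  refine discreteTopology_iff_isOpen_singleton_zero.mpr ?_
  have h1 : IsOpen {F : Ga | ‖(F : XX) 0‖ < 1} := isOpen_lt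
    ((continuous_apply 0).comp continuous_subtype_val).norm continuous_const
  convert h1 using 1
  ext ⟨F, a, h2, h3⟩
  simp only [mem_singleton_iff, mem_ofPred_eq, Subtype.ext_iff, ZeroMemClass.coe_zero]
  refine ⟨by rintro rfl; simp, fun h => h3.ext fun m k => ?_⟩
  obtain ⟨j, hj⟩ := h2 k
  have h4 := (h3.le_norm 0 k).trans_lt h
  rw [hj, wt, pow_zero, mul_one_div, div_lt_one (NN_pos k)] at h4
  push_cast at h4
  rw [abs_mul, Nat.abs_cast] at h4
  have h5 : |(j : ℝ)| < 1 := by nlinarith [NN_pos k]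
  have h6 : j = 0 := by
    rw [← Int.cast_abs] at h5
    exact Int.abs_lt_one_iff.mp (by exact_mod_cast h5)
  simp [hj, h6]

end Pool.Agent.P.MP_0bef39_lc
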