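import Pool.Agent.P.MP_0bef39_lc.Core

/-!
Reduction of the theorem for closed subgroups of complete metrizable topological vector spaces to
the core construction.
-/

namespace Pool.Agent.P.MP_0bef39_lc

open Set Metric Filter Topology Finsupp Uniformity

universe u

section metric

variable {X : Type u} [NormedAddCommGroup X] [Module ℝ X] [ContinuousSMul ℝ X]

theorem line_mem {z : ℕ → X} (hm : Mono X) (G : AddSubgroup X) (hG : IsClosed (G : Set X))
    (hzG : ∀ j, z j ∈ G) (hz : ∀ j, ‖z j‖ ≤ (1 / 2) ^ j) {v : X}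
    (hv : ∀ J, v ∈ closure (tl z J : Set X)) (t : ℝ) : t • v ∈ G := by
  refine hG.closure_subset (Metric.mem_closure_iff.mpr fun ε hε => ?_)
  obtain ⟨J, hJ⟩ := exists_pow_lt_of_lt_one (by positivity : 0 < ε / 4)
    (by norm_num : (1 : ℝ) / 2 < 1)
  have h1 : t • v ∈ closure (tl z J : Set X) :=
    (tl z J).topologicalClosure.smul_mem t (hv J)
  obtain ⟨y, h2, h3⟩ := Metric.mem_closure_iff.mp h1 (ε / 2) (half_pos hε)
  obtain ⟨a, -, h4⟩ := exists_round hm hz h2
  refine ⟨linearCombination ℤ z a, ?_, ?_⟩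
  · rw [linearCombination_apply]
    exact G.sum_mem fun i _ => G.zsmul_mem (hzG i) _
  · have := dist_triangle (t • v) y (linearCombination ℤ z a)
    rw [dist_eq_norm y] at this
    linarith

theorem exists_small (v : X) {ε : ℝ} (hε : 0 < ε) : ∃ t : ℝ, t ≠ 0 ∧ ‖t • v‖ ≤ ε := by
  have h1 : Tendsto (fun t : ℝ => ‖t • v‖) (𝓝[≠] 0) (𝓝 0) := by
    have : Continuous fun t : ℝ => ‖t • v‖ := by fun_prop
    simpa using (this.tendsto 0).mono_left nhdsWithin_le_nhds
  obtain ⟨t, h2, h3⟩ := ((h1.eventually (gt_mem_nhds hε)).and self_mem_nhdsWithin).exists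
  exact ⟨t, h3, h2.le⟩

theorem wild_of_quot [CompleteSpace X] [SecondCountableTopology X] (hm : Mono X)
    (G : AddSubgroup X) (hG : IsClosed (G : Set X)) (L : Submodule ℝ X)
    (hLc : IsClosed (L : Set X)) (hLG : (L : Set X) ⊆ G) (z : ℕ → X) (hz1 : ∀ j, z j ∈ G)
    (hz2 : ∀ j, z j ∉ L) (hz3 : ∀ j, ‖z j‖ ≤ (1 / 2) ^ j)
    (h : ∀ x : X, (∀ t : ℝ, t • x ∈ G) →
      (∀ J, L.mkQ x ∈ closure (tl (fun j => L.mkQ (z j)) J : Set (X ⧸ L))) → x ∈ L) :
    Wild G := by
  let G' : AddSubgroup (X ⧸ L) := G.map L.mkQ.toAddMonoidHom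
  have hmem : ∀ x : X, L.mkQ x ∈ G' → x ∈ G := by
    rintro x ⟨y, hy, h⟩
    have h2 : y - x ∈ L := (Submodule.Quotient.eq L).mp h
    simpa using G.sub_mem hy (hLG h2)
  have hG' : IsClosed (G' : Set (X ⧸ L)) := by
    rw [← L.isOpenQuotientMap_mkQ.isQuotientMap.isClosed_preimage]
    convert hG using 1
    ext x
    exact ⟨hmem x, fun h => ⟨x, h, rfl⟩⟩
  have hm' : Mono (X ⧸ L) := by
    intro t x ht
    refine le_of_forall_pos_lt_add fun ε hε => ?_
    obtain ⟨y, rfl, h2⟩ := Submodule.Quotient.norm_mk_lt x hε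
    rw [← Submodule.Quotient.mk_smul]
    exact lt_of_le_of_lt ((Submodule.Quotient.norm_mk_le _ _).trans (hm t y ht)) h2
  have : SecondCountableTopology (X ⧸ L) :=
    inferInstanceAs (SecondCountableTopology (X ⧸ L.toAddSubgroup))
  have hz' : ∀ j, ‖L.mkQ (z j)‖ ≤ (1 / 2) ^ j := fun j =>
    (Submodule.Quotient.norm_mk_le _ _).trans (hz3 j)
  have hw : Wild G' := core (z := fun j => L.mkQ (z j)) hm' G' hG' (fun j => ⟨_, hz1 j, rfl⟩)
    (fun j h => hz2 j ((Submodule.Quotient.mk_eq_zero L).mp h)) hz' fun v hv => by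
      obtain ⟨x, rfl⟩ := L.mkQ_surjective v
      refine (Submodule.Quotient.mk_eq_zero L).mpr (h x (fun t => hmem _ ?_) hv)
      rw [map_smul]
      exact line_mem hm' G' hG' (fun j => ⟨_, hz1 j, rfl⟩) hz' hv t
  refine Wild.of_surjective (L.mkQ.toAddMonoidHom.addSubgroupMap G) ?_
    (AddMonoidHom.addSubgroupMap_surjective _ _) hw
  exact (L.isOpenQuotientMap_mkQ.continuous.comp continuous_subtype_val).subtype_mk _

theorem main_metric [CompleteSpace X] [SecondCountableTopology X] (hm : Mono X)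
    (G : AddSubgroup X) (hG : IsClosed (G : Set X)) (hlc : ¬ LocallyCompactSpace G)
    (hL : ∀ Z : Submodule ℝ X, IsClosed (Z : Set X) → (Z : Set X) ⊆ G → ¬ FiniteDimensional ℝ Z →
      ∃ W : Submodule ℝ X, IsClosed (W : Set X) ∧ W < Z ∧ ¬ FiniteDimensional ℝ W) :
    Wild G := by
  let L : Submodule ℝ X :=
    { carrier := {v | ∀ t : ℝ, t • v ∈ G}
      add_mem' := fun ha hb t => by rw [smul_add]; exact G.add_mem (ha t) (hb t)
      zero_mem' := fun t => by rw [smul_zero]; exact G.zero_mem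
      smul_mem' := fun c v hv t => by rw [smul_smul]; exact hv _ }
  have hLG : (L : Set X) ⊆ G := fun v hv => by simpa using hv 1
  have hLc : IsClosed (L : Set X) := by
    change IsClosed {v : X | ∀ t : ℝ, t • v ∈ G}
    rw [ofPred_forall]
    exact isClosed_iInter fun t => hG.preimage (continuous_const_smul t)
  by_cases hfin : FiniteDimensional ℝ L
  · have h1 : ∀ j : ℕ, ∃ x ∈ G, x ∉ L ∧ ‖x‖ ≤ (1 / 2) ^ j := by
      intro j
      by_contra hcon
      push Not at hcon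
      apply hlc
      have := LocallyCompactSpace.of_finiteDimensional_of_complete ℝ L
      obtain ⟨K, hK1, hK2⟩ := exists_compact_mem_nhds (0 : L)
      have h2 : IsCompact (((↑) : G → X) ⁻¹' (((↑) : L → X) '' K)) :=
        hG.isClosedEmbedding_subtypeVal.isCompact_preimage (hK1.image continuous_subtype_val)
      refine h2.locallyCompactSpace_of_mem_nhds_of_addGroup (x := 0) ?_
      obtain ⟨ε, hε, h3⟩ := Metric.mem_nhds_iff.mp hK2
      refine mem_of_superset (ball_mem_nhds 0 (lt_min hε (by positivity : (0 : ℝ) < (1 / 2) ^ j)))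
        fun a ha => ?_
      have h4 : ‖(a : X)‖ < min ε ((1 / 2) ^ j) := by simpa using ha
      have h5 : (a : X) ∈ L := by
        by_contra h5
        exact absurd (hcon a a.2 h5) (not_lt.mpr (h4.le.trans (min_le_right _ _)))
      exact ⟨⟨a, h5⟩, h3 (by simpa using h4.trans_le (min_le_left _ _)), rfl⟩
    choose z hz1 hz2 hz3 using h1
    exact wild_of_quot hm G hG L hLc hLG z hz1 hz2 hz3 fun x hx _ => hx
  · choose! nx hn1 hn2 hn3 using hL
    let W : ℕ → Submodule ℝ X := fun n => nx^[n] L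
    have hW : ∀ n, W (n + 1) = nx (W n) := fun n => Function.iterate_succ_apply' _ _ _
    have h1 : ∀ n, IsClosed (W n : Set X) ∧ (W n : Set X) ⊆ G ∧ ¬ FiniteDimensional ℝ (W n) := by
      intro n
      induction n with
      | zero => exact ⟨hLc, hLG, hfin⟩
      | succ n ih =>
        rw [hW]
        exact ⟨hn1 _ ih.1 ih.2.1 ih.2.2, fun x hx => ih.2.1 ((hn2 _ ih.1 ih.2.1 ih.2.2).le hx),
          hn3 _ ih.1 ih.2.1 ih.2.2⟩
    have h2 : StrictAnti W := strictAnti_nat_of_succ_lt fun n => by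
      rw [hW]; exact hn2 _ (h1 n).1 (h1 n).2.1 (h1 n).2.2
    have h6 : ∀ j : ℕ, ∃ x ∈ W j, x ∉ W (j + 1) ∧ ‖x‖ ≤ (1 / 2) ^ j := by
      intro j
      obtain ⟨v, hv, hv0⟩ := SetLike.exists_of_lt (h2 (Nat.lt_add_one j))
      obtain ⟨t, ht, h7⟩ := exists_small v (by positivity : (0 : ℝ) < (1 / 2) ^ j)
      exact ⟨t • v, (W j).smul_mem t hv, fun h => hv0 (((W _).smul_mem_iff ht).mp h), h7⟩
    choose z hz1 hz2 hz3 using h6
    have hM : ∀ n, ⨅ n, W n ≤ W n := iInf_le W
    refine wild_of_quot hm G hG (⨅ n, W n) ?_ (fun x hx => (h1 0).2.1 (hM 0 hx)) z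
      (fun j => (h1 j).2.1 (hz1 j)) (fun j h => hz2 j (hM _ h)) hz3 fun x _ hx => ?_
    · rw [Submodule.coe_iInf]
      exact isClosed_iInter fun n => (h1 n).1
    · rw [Submodule.mem_iInf]
      intro J
      have h3 : ((W J).map (⨅ n, W n).mkQ).comap (⨅ n, W n).mkQ = W J := by
        rw [Submodule.comap_map_mkQ, sup_eq_right.mpr (hM J)]
      have h4 : IsClosed (((W J).map (⨅ n, W n).mkQ : Submodule ℝ _) : Set (X ⧸ ⨅ n, W n)) := by
        rw [← (⨅ n, W n).isOpenQuotientMap_mkQ.isQuotientMap.isClosed_preimage,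
          ← Submodule.comap_coe, h3]
        exact (h1 J).1
      rw [← h3]
      refine h4.closure_subset_iff.mpr (Submodule.span_le.mpr ?_) (hx J)
      rintro _ ⟨j, hj, rfl⟩
      exact ⟨z j, h2.antitone hj (hz1 j), rfl⟩

end metric

section tvs

variable {X : Type u} [AddCommGroup X] [Module ℝ X] [UniformSpace X] [IsUniformAddGroup X]
  [ContinuousSMul ℝ X] [T2Space X] [SecondCountableTopology X]

omit [IsUniformAddGroup X] [T2Space X] [ContinuousSMul ℝ X] [SecondCountableTopology X] in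
theorem not_atomic_of_separatingDual [SeparatingDual ℝ X]
    (Z : Submodule ℝ X) (hZ : IsClosed (Z : Set X)) (hfin : ¬ FiniteDimensional ℝ Z) :
    ∃ W : Submodule ℝ X, IsClosed (W : Set X) ∧ W < Z ∧ ¬ FiniteDimensional ℝ W := by
  obtain ⟨v, hv, hv0⟩ := Submodule.exists_mem_ne_zero_of_ne_bot
    (p := Z) (by rintro rfl; exact hfin inferInstance)
  obtain ⟨f, hf⟩ := SeparatingDual.exists_eq_one (R := ℝ) hv0
  refine ⟨Z ⊓ f.ker, hZ.inter f.isClosed_ker, lt_of_le_of_ne inf_le_left fun h => ?_,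
    fun h => hfin ?_⟩
  · have h1 : f v = 0 := (h.ge hv).2
    simp [hf] at h1
  · refine Submodule.finiteDimensional_of_le (S₂ := (Z ⊓ f.ker) ⊔ Submodule.span ℝ {v})
      fun x hx => ?_
    rw [← sub_add_cancel x (f x • v)]
    refine Submodule.add_mem_sup ⟨Z.sub_mem hx (Z.smul_mem _ hv), ?_⟩
      (Submodule.smul_mem _ _ (Submodule.mem_span_singleton_self v))
    simp [hf]

theorem exists_fnorm : ∃ N : AddGroupNorm X, (∀ (t : ℝ) (x : X), |t| ≤ 1 → N (t • x) ≤ N x) ∧
    (𝓝 (0 : X)).HasBasis (fun ε : ℝ => 0 < ε) fun ε => {x | N x < ε} := by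
  have := IsUniformAddGroup.uniformity_countably_generated (α := X)
  let m : PseudoMetricSpace X := UniformSpace.pseudoMetricSpace X
  let N : X → ℝ := fun x => ⨆ p : Icc (-1 : ℝ) 1 × X, min 1 (dist (p.2 + (p.1 : ℝ) • x) p.2)
  have : Nonempty (Icc (-1 : ℝ) 1) := ⟨⟨1, by norm_num⟩⟩
  have hle : ∀ (t : ℝ), |t| ≤ 1 → ∀ x y : X, min 1 (dist (y + t • x) y) ≤ N x := fun t ht x y =>
    le_ciSup (f := fun p : Icc (-1 : ℝ) 1 × X => min 1 (dist (p.2 + (p.1 : ℝ) • x) p.2))
      ⟨1, by rintro _ ⟨p, rfl⟩; exact min_le_left _ _⟩ (⟨t, abs_le.mp ht⟩, y)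
  have hsm : ∀ (t : ℝ) (x : X), |t| ≤ 1 → N (t • x) ≤ N x := fun t x ht =>
    ciSup_le fun p => by
      rw [smul_smul]
      refine hle _ ?_ x _
      rw [abs_mul]
      exact mul_le_one₀ (abs_le.mpr p.1.2) (abs_nonneg _) ht
  have hb : (𝓝 (0 : X)).HasBasis (fun ε : ℝ => 0 < ε) fun ε => {x | N x < ε} := by
    refine ⟨fun U => ⟨fun hU => ?_, ?_⟩⟩
    · obtain ⟨ε, hε, h1⟩ := Metric.mem_nhds_iff.mp hU
      refine ⟨min 1 ε, lt_min one_pos hε, fun x hx => h1 ?_⟩
      have h2 := (hle 1 (by simp) x 0).trans_lt hx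
      rw [one_smul, zero_add] at h2
      rcases min_lt_iff.mp h2 with h3 | h3
      · exact absurd h3 (not_lt.mpr (min_le_left _ _))
      · exact h3.trans_le (min_le_right _ _)
    · rintro ⟨ε, hε, h1⟩
      have h2 := dist_mem_uniformity (α := X) (half_pos hε)
      rw [uniformity_eq_comap_nhds_zero_swapped] at h2
      obtain ⟨V, hV, h3⟩ := h2
      obtain ⟨V', ⟨h4, h5⟩, h6⟩ := (nhds_basis_balanced ℝ X).mem_iff.mp hV
      refine mem_of_superset h4 fun x hx => h1 (lt_of_le_of_lt (ciSup_le fun p => ?_)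
        (half_lt_self hε))
      refine (min_le_right _ _).trans (le_of_lt (@h3 (p.2 + (p.1 : ℝ) • x, p.2) ?_))
      simpa using h6 (h5.smul_mem (by simpa using abs_le.mpr p.1.2) hx)
  have hneg : ∀ x, N (-x) ≤ N x := fun x => by simpa using hsm (-1) x (by simp)
  refine ⟨{ toFun := N
            map_zero' := by simp [N]
            add_le' := fun x y => ciSup_le fun p => ?_
            neg' := fun x => le_antisymm (hneg x) (by simpa using hneg (-x))
            eq_zero_of_map_eq_zero' := fun x hx => ?_ }, hsm, hb⟩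
  · have h1 := hle _ (abs_le.mpr p.1.2) x (p.2 + (p.1 : ℝ) • y)
    have h2 := hle _ (abs_le.mpr p.1.2) y p.2
    have h3 := dist_triangle (p.2 + (p.1 : ℝ) • y + (p.1 : ℝ) • x) (p.2 + (p.1 : ℝ) • y) p.2
    rw [smul_add, add_comm ((p.1 : ℝ) • x), ← add_assoc]
    refine le_trans ?_ (add_le_add h1 h2)
    refine (min_le_min_left 1 h3).trans ?_
    have h4 := dist_nonneg (x := p.2 + (p.1 : ℝ) • y + (p.1 : ℝ) • x) (y := p.2 + (p.1 : ℝ) • y)
    have h5 := dist_nonneg (x := p.2 + (p.1 : ℝ) • y) (y := p.2)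
    simp only [min_def]
    split_ifs <;> linarith
  · by_contra h0
    obtain ⟨ε, hε, h1⟩ := hb.mem_iff.mp (isOpen_compl_singleton.mem_nhds (Ne.symm h0))
    exact h1 (show N x < ε from hx ▸ hε) rfl

theorem main_tvs [CompleteSpace X] (G : AddSubgroup X) (hG : IsClosed (G : Set X))
    (hlc : ¬ LocallyCompactSpace G)
    (hL : ∀ Z : Submodule ℝ X, IsClosed (Z : Set X) → (Z : Set X) ⊆ G → ¬ FiniteDimensional ℝ Z →
      ∃ W : Submodule ℝ X, IsClosed (W : Set X) ∧ W < Z ∧ ¬ FiniteDimensional ℝ W) :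
    Wild G := by
  obtain ⟨N, h1, h2⟩ := exists_fnorm (X := X)
  rename_i i1 i2 U i3 i4 i5 i6 i7
  have hU : 𝓤[U] = 𝓤[(AddGroupNorm.toNormedAddCommGroup N).toUniformSpace] := by
    refine HasBasis.eq_of_same_basis h2.uniformity_of_nhds_zero ?_
    convert @Metric.uniformity_basis_dist X
      (AddGroupNorm.toNormedAddCommGroup N).toPseudoMetricSpace using 4 with ε p
    change N (p.2 - p.1) < ε ↔ N (-p.1 + p.2) < ε
    rw [neg_add_eq_sub]
  let i : NormedAddCommGroup X :=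
    { toAddCommGroup := i1
      toNorm := ⟨N⟩
      toMetricSpace := (AddGroupNorm.toNormedAddCommGroup N).toMetricSpace.replaceUniformity hU
      dist_eq := fun _ _ => rfl }
  exact main_metric h1 G hG hlc hL

end tvs

end Pool.Agent.P.MP_0bef39_lc
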