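import Pool.Agent.P.MP_0bef39_lc.Oracle

/-!
The key construction: a sequence in `G` of prescribed sizes whose integer combinations stay away
from a uniformly discrete subgroup.
-/

namespace Pool.Agent.P.MP_0bef39_lc

open Set Metric Filter Topology

theorem exists_rec {α : Type*} [Inhabited α] (P : ℕ → (ℕ → α) → α → Prop)
    (hex : ∀ s w, ∃ x, P s w x)
    (hloc : ∀ s w w' x, (∀ t < s, w t = w' t) → P s w x → P s w' x) :
    ∃ z : ℕ → α, ∀ s, P s z (z s) := by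
  choose Φ hΦ using hex
  let W : ℕ → ℕ → α := fun s =>
    Nat.rec (fun _ => default) (fun s w => Function.update w s (Φ s w)) s
  have hW : ∀ s, W (s + 1) = Function.update (W s) s (Φ s (W s)) := fun s => rfl
  let z : ℕ → α := fun s => Φ s (W s)
  have h1 : ∀ s t, t < s → W s t = z t := by
    intro s
    induction s with
    | zero => intro t ht; omega
    | succ s ih =>
      intro t ht
      rw [hW]
      rcases Nat.lt_succ_iff_lt_or_eq.mp ht with h | h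
      · rw [Function.update_of_ne h.ne, ih t h]
      · rw [h, Function.update_self]
  exact ⟨z, fun s => hloc s (W s) z (z s) (h1 s) (hΦ s (W s))⟩

variable {X : Type*} [NormedAddCommGroup X] [NormedSpace ℝ X]

/-- The scale used at stage `s`. -/
noncomputable def sc (ρ : ℕ → ℝ) (s : ℕ) : ℝ := ρ (Nat.unpair s).1 / 2 ^ (Nat.unpair s).2

/-- The sum of the first `s` stages. -/
def ps (w : ℕ → X) (a : ℕ → ℤ) (s : ℕ) : X :=
  ∑ t ∈ Finset.range s, a (Nat.unpair t).1 • w t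

/-- From stage `s` on all perturbations are small. -/
def Small (ρ : ℕ → ℝ) (κ : ℝ) (a : ℕ → ℤ) (s : ℕ) : Prop :=
  ∀ t, s ≤ t → |(a (Nat.unpair t).1 : ℝ)| * sc ρ t < κ / 16

/-- The finite set handled at stage `s`. -/
def ES (Γ : AddSubgroup X) (ρ : ℕ → ℝ) (κ : ℝ) (w : ℕ → X) (s : ℕ) : Set X :=
  {x | ∃ a, Small ρ κ a s ∧ ∃ γ ∈ Γ, x = ps w a s - γ ∧ ‖x‖ < κ / 4}

omit [NormedSpace ℝ X] in
theorem ps_congr {w w' : ℕ → X} {a a' : ℕ → ℤ} {s : ℕ} (hw : ∀ t < s, w t = w' t)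
    (ha : ∀ i < s, a i = a' i) : ps w a s = ps w' a' s := by
  refine Finset.sum_congr rfl fun t ht => ?_
  have ht' := Finset.mem_range.mp ht
  rw [hw t ht', ha _ (lt_of_le_of_lt (Nat.unpair_left_le t) ht')]

omit [NormedSpace ℝ X] in
theorem ES_finite (Γ : AddSubgroup X) {ρ : ℕ → ℝ} (hρ : ∀ j, 0 < ρ j) {κ : ℝ}
    (hκ : ∀ γ ∈ Γ, ‖γ‖ < κ → γ = 0) (w : ℕ → X) (s : ℕ) : (ES Γ ρ κ w s).Finite := by
  have h1 : {x | ∃ a, Small ρ κ a s ∧ x = ps w a s}.Finite := by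
    let B : Fin s → ℤ := fun i => ⌈κ / 16 * 2 ^ s / ρ i⌉
    have hfin : (Set.pi univ fun i : Fin s => Set.Icc (-B i) (B i)).Finite :=
      Set.Finite.pi fun i => Set.finite_Icc _ _
    refine (hfin.image fun b => ps w (fun i => if h : i < s then b ⟨i, h⟩ else 0) s).subset ?_
    rintro _ ⟨a, ha, rfl⟩
    refine ⟨fun i => a i, fun i _ => ?_, ps_congr (fun _ _ => rfl) fun i hi => by simp [hi]⟩
    have h2 := ha (Nat.pair i s) (Nat.right_le_pair _ _)
    simp only [sc, Nat.unpair_pair] at h2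
    have h3 : |(a i : ℝ)| ≤ κ / 16 * 2 ^ s / ρ i := by
      rw [le_div_iff₀ (hρ i)]
      rw [← mul_div_assoc, div_lt_iff₀ (by positivity)] at h2
      exact h2.le
    have h4 : ((|a i| : ℤ) : ℝ) ≤ (B i : ℤ) := by
      rw [Int.cast_abs]; exact h3.trans (Int.le_ceil _)
    exact abs_le.mp (Int.cast_le.mp h4)
  have h2 : ∀ p : X, {x | ∃ γ ∈ Γ, x = p - γ ∧ ‖x‖ < κ / 4}.Finite := by
    intro p
    refine Set.Subsingleton.finite ?_
    rintro _ ⟨γ, hγ, rfl, h3⟩ _ ⟨γ', hγ', rfl, h4⟩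
    have h5 : γ' - γ = 0 := by
      refine hκ _ (Γ.sub_mem hγ' hγ) ?_
      have e : γ' - γ = (p - γ) - (p - γ') := by abel
      have := norm_sub_le (p - γ) (p - γ')
      have := norm_nonneg (p - γ)
      rw [e]; linarith
    rw [sub_eq_zero.mp h5]
  refine (h1.biUnion fun p _ => h2 p).subset ?_
  rintro x ⟨a, ha, h⟩
  exact mem_iUnion₂.mpr ⟨ps w a s, ⟨a, ha, rfl⟩, h⟩

theorem exists_stages (G Γ : AddSubgroup X)
    (hG : ∀ r, 0 < r → ¬ TotallyBounded ((G : Set X) ∩ ball 0 r))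
    {ρ : ℕ → ℝ} (hρ : ∀ j, 0 < ρ j) {κ : ℝ} (hκ : ∀ γ ∈ Γ, ‖γ‖ < κ → γ = 0) :
    ∃ z : ℕ → X, ∀ s, z s ∈ G ∧ sc ρ s ≤ ‖z s‖ ∧ ‖z s‖ ≤ 2 * sc ρ s ∧
      ∀ x ∈ ES Γ ρ κ z s, ∀ t : ℤ, ‖x‖ - (1 / 2) ^ s / 8 * ‖t • z s‖ ≤ ‖x + t • z s‖ := by
  have : Inhabited X := ⟨0⟩
  refine exists_rec (fun s w v => v ∈ G ∧ sc ρ s ≤ ‖v‖ ∧ ‖v‖ ≤ 2 * sc ρ s ∧
      ∀ x ∈ ES Γ ρ κ w s, ∀ t : ℤ, ‖x‖ - (1 / 2) ^ s / 8 * ‖t • v‖ ≤ ‖x + t • v‖)
    (fun s w => ?_) ?_
  · obtain ⟨z, h1, h2, h3, h4⟩ := oracle G hG (ES_finite Γ hρ hκ w s)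
      (ε := (1 / 2) ^ s / 8) (ρ := sc ρ s) (by positivity)
      (div_pos (hρ _) (by positivity))
    exact ⟨z, h1, h2, h3, h4⟩
  · rintro s w w' v hw ⟨h1, h2, h3, h4⟩
    refine ⟨h1, h2, h3, fun x hx => h4 x ?_⟩
    obtain ⟨a, ha, γ, hγ, h5, h6⟩ := hx
    exact ⟨a, ha, γ, hγ, by rw [h5, ps_congr hw fun _ _ => rfl], h6⟩

theorem norm_zsmul_eq (t : ℤ) (v : X) : ‖t • v‖ = |(t : ℝ)| * ‖v‖ := by
  rw [← Int.cast_smul_eq_zsmul ℝ, norm_smul, Real.norm_eq_abs]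

theorem far_of_stages (Γ : AddSubgroup X) {ρ : ℕ → ℝ} {κ : ℝ} (z : ℕ → X)
    (hz1 : ∀ s, sc ρ s ≤ ‖z s‖) (hz2 : ∀ s, ‖z s‖ ≤ 2 * sc ρ s)
    (hz3 : ∀ s, ∀ x ∈ ES Γ ρ κ z s, ∀ t : ℤ,
      ‖x‖ - (1 / 2) ^ s / 8 * ‖t • z s‖ ≤ ‖x + t • z s‖)
    (a : ℕ → ℤ) {r : ℝ} (hr : 0 ≤ r) {s₀ : ℕ} (hs : Small ρ κ a s₀)
    (hr' : 8 * r ≤ |(a (Nat.unpair s₀).1 : ℝ)| * sc ρ s₀) {γ : X} (hγ : γ ∈ Γ) :
    ∀ s, s₀ < s → r ≤ ‖ps z a s - γ‖ := by
  have hrκ : 8 * r < κ / 16 := lt_of_le_of_lt hr' (hs s₀ le_rfl)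
  have hstep : ∀ s, ps z a (s + 1) - γ = (ps z a s - γ) + a (Nat.unpair s).1 • z s := by
    intro s
    simp only [ps, Finset.sum_range_succ]
    abel
  have hw : ∀ s, s₀ ≤ s → ‖a (Nat.unpair s).1 • z s‖ < κ / 8 := by
    intro s h
    rw [norm_zsmul_eq]
    have h1 := hs s h
    have h2 : |(a (Nat.unpair s).1 : ℝ)| * ‖z s‖ ≤ |(a (Nat.unpair s).1 : ℝ)| * (2 * sc ρ s) := by
      gcongr; exact hz2 s
    linarith
  have hmain : ∀ s, s₀ < s → (1 + (1 / 2) ^ s) * r ≤ ‖ps z a s - γ‖ := by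
    intro s h
    induction s, h using Nat.le_induction with
    | base =>
      rw [hstep]
      set x := ps z a s₀ - γ
      set w := a (Nat.unpair s₀).1 • z s₀ with hwdef
      have h1 : 8 * r ≤ ‖w‖ := by
        rw [hwdef, norm_zsmul_eq]
        refine hr'.trans ?_
        gcongr; exact hz1 s₀
      have h2 : ((1 : ℝ) / 2) ^ (s₀ + 1) ≤ 1 := pow_le_one₀ (by norm_num) (by norm_num)
      have h3 : ‖w‖ ≤ ‖x + w‖ + ‖x‖ := by
        simpa using norm_sub_le (x + w) x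
      have h4 : ‖x‖ ≤ ‖x + w‖ + ‖w‖ := by
        simpa using norm_sub_le (x + w) w
      have h5 := hw s₀ le_rfl
      have h6 : (1 + (1 / 2) ^ (s₀ + 1)) * r ≤ 2 * r := by gcongr; linarith
      rw [← hwdef] at h5
      refine h6.trans ?_
      by_cases hx : ‖x‖ < κ / 4
      · have h7 := hz3 s₀ x ⟨a, hs, γ, hγ, rfl, hx⟩ (a (Nat.unpair s₀).1)
        have h8 : ((1 : ℝ) / 2) ^ s₀ ≤ 1 := pow_le_one₀ (by norm_num) (by norm_num)
        have h9 : (1 / 2) ^ s₀ / 8 * ‖w‖ ≤ 1 / 8 * ‖w‖ := by gcongr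
        rw [← hwdef] at h7
        linarith [norm_nonneg w]
      · linarith
    | succ s h ih =>
      rw [hstep]
      set x := ps z a s - γ
      set w := a (Nat.unpair s).1 • z s with hwdef
      have h2 : ((1 : ℝ) / 2) ^ s ≤ 1 := pow_le_one₀ (by norm_num) (by norm_num)
      have h2' : 0 < ((1 : ℝ) / 2) ^ s := by positivity
      have h3 : ‖w‖ ≤ ‖x + w‖ + ‖x‖ := by
        simpa using norm_sub_le (x + w) x
      have h4 : ‖x‖ ≤ ‖x + w‖ + ‖w‖ := by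
        simpa using norm_sub_le (x + w) w
      have h5 := hw s (by omega)
      rw [← hwdef] at h5
      rw [pow_succ]
      set q := ((1 : ℝ) / 2) ^ s
      by_cases hx : ‖x‖ < κ / 4
      · have h7 := hz3 s x ⟨a, fun t ht => hs t (by omega), γ, hγ, rfl, hx⟩ (a (Nat.unpair s).1)
        rw [← hwdef] at h7
        have h8 : q / 8 * ‖w‖ ≤ q / 8 * (‖x + w‖ + ‖x‖) := by gcongr
        have h9 : (1 - q / 8) * ((1 + q) * r) ≤ (1 - q / 8) * ‖x‖ := by
          gcongr; linarith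
        have h10 : (1 + q / 8) * ((1 + q * (1 / 2)) * r) ≤ (1 + q / 8) * ‖x + w‖ := by
          have : (1 + q / 8) * (1 + q * (1 / 2)) ≤ (1 - q / 8) * (1 + q) := by nlinarith
          have := mul_le_mul_of_nonneg_right this hr
          nlinarith
        exact le_of_mul_le_mul_left h10 (by positivity)
      · nlinarith
  intro s h
  have h1 := hmain s h
  have h2 : 0 ≤ ((1 : ℝ) / 2) ^ s * r := by positivity
  linarith

theorem key [CompleteSpace X] (G Γ : AddSubgroup X) (hGc : IsClosed (G : Set X))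
    (hG : ∀ r, 0 < r → ¬ TotallyBounded ((G : Set X) ∩ ball 0 r))
    {ρ : ℕ → ℝ} (hρ : ∀ j, 0 < ρ j) {κ : ℝ} (hρκ : ∀ j, ρ j ≤ κ / 32)
    (hκ : ∀ γ ∈ Γ, ‖γ‖ < κ → γ = 0) :
    ∃ y : ℕ → X, (∀ j, y j ∈ G) ∧ (∀ j, ‖y j‖ ≤ 4 * ρ j) ∧
      ∀ (a : ℕ →₀ ℤ) (j : ℕ), a j ≠ 0 → ∀ γ ∈ Γ,
        ρ j / 8 ≤ ‖(a.sum fun i c => c • y i) - γ‖ := by
  obtain ⟨z, hz⟩ := exists_stages G Γ hG hρ hκ
  have hb : ∀ j k, ‖z (Nat.pair j k)‖ ≤ 4 * ρ j / 2 / 2 ^ k := by
    intro j k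
    have := (hz (Nat.pair j k)).2.2.1
    simp only [sc, Nat.unpair_pair] at this
    refine this.trans (le_of_eq ?_)
    ring
  have hsum : ∀ j, Summable fun k => z (Nat.pair j k) := fun j =>
    Summable.of_norm_bounded (summable_geometric_two' (4 * ρ j)) (hb j)
  let y : ℕ → X := fun j => ∑' k, z (Nat.pair j k)
  refine ⟨y, fun j => ?_, fun j => ?_, fun a j hj γ hγ => ?_⟩
  · refine hGc.mem_of_tendsto (hsum j).hasSum.tendsto_sum_nat (Eventually.of_forall fun n => ?_)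
    exact G.sum_mem fun k _ => (hz _).1
  · exact tsum_of_norm_bounded (hasSum_geometric_two' (4 * ρ j)) (hb j)
  · have h1 : ∀ i, HasSum (fun t => if (Nat.unpair t).1 = i then a i • z t else 0) (a i • y i) := by
      intro i
      have hinj : Function.Injective fun k => Nat.pair i k := fun k k' h =>
        (Nat.pair_eq_pair.mp h).2
      rw [← hinj.hasSum_iff]
      · simpa [Function.comp_def] using (hsum i).hasSum.const_smul (a i)
      · intro t ht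
        rw [if_neg]
        intro h
        exact ht ⟨(Nat.unpair t).2, by rw [← h]; exact Nat.pair_unpair t⟩
    have h2 : HasSum (fun t => a (Nat.unpair t).1 • z t) (a.sum fun i c => c • y i) := by
      convert hasSum_sum (s := a.support) fun i _ => h1 i using 2 with t
      · rw [Finset.sum_ite_eq]
        split_ifs with h
        · rfl
        · rw [Finsupp.notMem_support_iff.mp h, zero_smul]
      · rfl
    have hκ0 : 0 < κ := by linarith [hρ j, hρκ j]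
    have h3 : ∃ s, ∀ t, s ≤ t → |(a (Nat.unpair t).1 : ℝ)| * sc ρ t < κ / 32 := by
      have h4 := h2.summable.tendsto_atTop_zero.norm
      rw [norm_zero] at h4
      obtain ⟨s, hs⟩ := eventually_atTop.mp (h4.eventually (gt_mem_nhds (by positivity : (0 : ℝ) < κ / 32)))
      refine ⟨s, fun t ht => lt_of_le_of_lt ?_ (hs t ht)⟩
      rw [norm_zsmul_eq]
      gcongr; exact (hz t).2.1
    have h5 : ∃ s₀, Small ρ κ a s₀ ∧
        8 * (ρ j / 8) ≤ |(a (Nat.unpair s₀).1 : ℝ)| * sc ρ s₀ := by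
      classical
      have h6 := Nat.find_spec h3
      rcases Nat.eq_zero_or_eq_succ_pred (Nat.find h3) with h7 | h7
      · rw [h7] at h6
        refine ⟨Nat.pair j 0, fun t _ => by linarith [h6 t (Nat.zero_le _)], ?_⟩
        simp only [sc, Nat.unpair_pair, pow_zero, div_one]
        have h8 : (1 : ℝ) ≤ |(a j : ℝ)| := by
          rw [← Int.cast_abs]; exact_mod_cast Int.one_le_abs hj
        nlinarith [hρ j]
      · set s₀ := (Nat.find h3).pred
        rw [h7] at h6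
        have h8 : ¬ |(a (Nat.unpair s₀).1 : ℝ)| * sc ρ s₀ < κ / 32 := by
          intro h9
          refine Nat.find_min h3 (m := s₀) (by rw [h7]; exact Nat.lt_succ_self _) fun t ht => ?_
          rcases ht.eq_or_lt with h | h
          · rw [← h]; exact h9
          · exact h6 t h
        refine ⟨s₀, fun t ht => ?_, by linarith [hρκ j]⟩
        rcases ht.eq_or_lt with h | h
        · have h9 := h6 (Nat.pair (Nat.unpair t).1 ((Nat.unpair t).2 + 1)) (by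
            have := Nat.pair_lt_pair_right (Nat.unpair t).1 (Nat.lt_add_one (Nat.unpair t).2)
            rw [Nat.pair_unpair] at this
            omega)
          simp only [sc, Nat.unpair_pair, pow_succ] at h9
          rw [← div_div, ← mul_div_assoc] at h9
          unfold sc
          linarith
        · linarith [h6 t h]
    obtain ⟨s₀, h6, h7⟩ := h5
    have h8 := far_of_stages Γ z (fun s => (hz s).2.1) (fun s => (hz s).2.2.1)
      (fun s => (hz s).2.2.2) a (by linarith [hρ j]) h6 h7 hγ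
    have h9 : Tendsto (fun s => ‖ps z a s - γ‖) atTop
        (𝓝 ‖(a.sum fun i c => c • y i) - γ‖) :=
      (h2.tendsto_sum_nat.sub_const γ).norm
    exact ge_of_tendsto h9 (eventually_atTop.mpr ⟨s₀ + 1, fun s hs => h8 s hs⟩)

end Pool.Agent.P.MP_0bef39_lc
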