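import Mathlib

/-!
Stabilizers of Borel actions of Polish abelian groups are closed.
-/

namespace Pool.Agent.P.MP_0bef39_lc

open Set Filter Topology

theorem zero_one {H : Type*} [AddCommGroup H] [TopologicalSpace H] [IsTopologicalAddGroup H]
    [BaireSpace H] [MeasurableSpace H] [BorelSpace H] {D : Set H} (hD : Dense D) {A : Set H}
    (hA : MeasurableSet A) (hinv : ∀ s ∈ D, ∀ h, h - s ∈ A → h ∈ A) :
    A ∈ residual H ∨ Aᶜ ∈ residual H := by
  obtain ⟨U, hU, h1⟩ := hA.residualEq_isOpen
  obtain ⟨V, hV, h2⟩ := hA.compl.residualEq_isOpen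
  rcases U.eq_empty_or_nonempty with rfl | ⟨u, hu⟩
  · exact Or.inr (h1.mono fun x hx h => (hx.mp h : x ∈ (∅ : Set H)))
  rcases V.eq_empty_or_nonempty with rfl | ⟨v, hv⟩
  · exact Or.inl (h2.mono fun x hx => by_contra fun h => (hx.mp h : x ∈ (∅ : Set H)))
  exfalso
  obtain ⟨s, hs, h3⟩ := hD.exists_mem_open (hV.preimage (continuous_add_const u))
    ⟨v - u, by simpa using hv⟩
  have h4 := tendsto_residual_of_isOpenMap (continuous_sub_right s) (isOpenMap_sub_right s) h1
  obtain ⟨h, ⟨h5, h6⟩, h7, h8⟩ := (dense_of_mem_residual (inter_mem h2 h4)).exists_mem_open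
    (hV.inter (hU.preimage (continuous_sub_right s))) ⟨s + u, h3, by simpa using hu⟩
  have h9 : h ∈ Aᶜ := h5.mpr h7
  exact h9 (hinv s hs h (h6.mpr h8))

theorem isClosed_of_measurable {G : Type*} [AddCommGroup G] [TopologicalSpace G]
    [IsTopologicalAddGroup G] [PolishSpace G] [MeasurableSpace G] [BorelSpace G]
    {X : Type*} [MeasurableSpace X] [MeasurableSpace.CountablySeparated X] {φ : G → X}
    (hφ : Measurable φ) (S : AddSubgroup G) (hS : ∀ g g', φ g = φ g' ↔ g - g' ∈ S) :
    IsClosed (S : Set G) := by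
  let H := S.topologicalClosure
  have : PolishSpace H := S.isClosed_topologicalClosure.polishSpace
  obtain ⟨B, hB1, hB2⟩ := exists_seq_separating X MeasurableSet.empty univ
  have hD : Dense {h : H | (h : G) ∈ S} := by
    refine Subtype.dense_iff.mpr fun x hx => closure_mono ?_ hx
    exact fun g hg => ⟨⟨g, S.le_topologicalClosure hg⟩, hg, rfl⟩
  have h1 : ∀ n, ∃ c : Prop, ∀ᶠ h : H in residual H, (φ h ∈ B n ↔ c) := by
    intro n
    rcases zero_one hD (A := {h : H | φ h ∈ B n}) (hφ.comp measurable_subtype_coe (hB1 n))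
      (fun s hs h h1 => by
        have : φ h = φ (h - s : H) := (hS _ _).mpr (by simpa using hs)
        exact (this ▸ h1 : φ h ∈ B n)) with h | h
    · exact ⟨True, mem_of_superset h fun x hx => iff_true_intro hx⟩
    · exact ⟨False, mem_of_superset h fun x hx => iff_false_intro hx⟩
  choose c hc using h1
  have h2 := eventually_countable_forall.mpr hc
  refine isClosed_of_closure_subset fun g hg => ?_
  have h3 := (tendsto_residual_of_isOpenMap (continuous_add_const (⟨g, hg⟩ : H))
    (isOpenMap_add_right _)).eventually h2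
  obtain ⟨h, h4, h5⟩ := (dense_of_mem_residual (h2.and h3)).nonempty
  have h6 := (hS _ _).mp (hB2 _ trivial _ trivial fun n => (h5 n).trans (h4 n).symm)
  simpa using h6

end Pool.Agent.P.MP_0bef39_lc
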