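import Mathlib

/-!
Mazur-type vectors inside an additive subgroup of a normed space none of whose balls is totally
bounded.
-/

namespace Pool.Agent.P.MP_0bef39_lc

open Set Metric

variable {X : Type*} [NormedAddCommGroup X] [NormedSpace ℝ X]

theorem exists_small_functionals (G : AddSubgroup X) {ρ : ℝ}
    (hG : ¬ TotallyBounded ((G : Set X) ∩ ball 0 (ρ / 2)))
    {ι : Type*} [Fintype ι] (f : ι → X →L[ℝ] ℝ) (hf : ∀ i, ‖f i‖ ≤ 1) {ε : ℝ} (hε : 0 < ε) :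
    ∃ z ∈ G, z ≠ 0 ∧ ‖z‖ < ρ ∧ ∀ i, |f i z| ≤ ε * ‖z‖ := by
  by_contra hcon
  push Not at hcon
  apply hG
  let Φ : X → (ι → ℝ) := fun x i => f i x
  have hΦ : TotallyBounded (closedBall (0 : ι → ℝ) (|ρ| / 2)) :=
    (isCompact_closedBall _ _).totallyBounded
  rw [Metric.totallyBounded_iff]
  intro δ hδ
  obtain ⟨t, ht, hcov⟩ := Metric.totallyBounded_iff.mp hΦ (ε * δ / 2) (by positivity)
  classical
  let g : (ι → ℝ) → X := fun y =>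
    if h : ∃ x ∈ (G : Set X) ∩ ball 0 (ρ / 2), Φ x ∈ ball y (ε * δ / 2) then h.choose else 0
  refine ⟨g '' t, ht.image _, fun x hx => ?_⟩
  have hxn : ‖x‖ < ρ / 2 := by simpa using hx.2
  have h1 : Φ x ∈ closedBall (0 : ι → ℝ) (|ρ| / 2) := by
    rw [mem_closedBall_zero_iff, pi_norm_le_iff_of_nonneg (by positivity)]
    intro i
    calc ‖f i x‖ ≤ ‖f i‖ * ‖x‖ := (f i).le_opNorm x
      _ ≤ 1 * ‖x‖ := by gcongr; exact hf i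
      _ ≤ |ρ| / 2 := by linarith [le_abs_self ρ]
  obtain ⟨y, hy, hxy⟩ := mem_iUnion₂.mp (hcov h1)
  have hex : ∃ x ∈ (G : Set X) ∩ ball 0 (ρ / 2), Φ x ∈ ball y (ε * δ / 2) := ⟨x, hx, hxy⟩
  have hg : g y = hex.choose := by simp only [g, dif_pos hex]
  obtain ⟨h2, h3⟩ := hex.choose_spec
  rw [← hg] at h2 h3
  refine mem_iUnion₂.mpr ⟨g y, ⟨y, hy, rfl⟩, ?_⟩
  rw [mem_ball, dist_eq_norm]
  by_cases h0 : x - g y = 0
  · rw [h0, norm_zero]; exact hδ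
  have hgn : ‖g y‖ < ρ / 2 := by simpa using h2.2
  obtain ⟨i, hi⟩ := hcon (x - g y) (G.sub_mem hx.1 h2.1) h0
    (by linarith [norm_sub_le x (g y)])
  have h4 : dist (Φ x) (Φ (g y)) < ε * δ := by
    have := dist_triangle_right (Φ x) (Φ (g y)) y
    rw [mem_ball] at hxy h3
    linarith
  have h5 : dist (Φ x i) (Φ (g y) i) < ε * δ := lt_of_le_of_lt (dist_le_pi_dist _ _ i) h4
  rw [Real.dist_eq] at h5
  have h6 : |f i (x - g y)| < ε * δ := by simpa [Φ] using h5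
  exact lt_of_mul_lt_mul_left (hi.trans h6) hε.le

theorem oracle (G : AddSubgroup X)
    (hG : ∀ r, 0 < r → ¬ TotallyBounded ((G : Set X) ∩ ball 0 r))
    {E : Set X} (hE : E.Finite) {ε ρ : ℝ} (hε : 0 < ε) (hρ : 0 < ρ) :
    ∃ z ∈ G, ρ ≤ ‖z‖ ∧ ‖z‖ ≤ 2 * ρ ∧
      ∀ x ∈ E, ∀ t : ℤ, ‖x‖ - ε * ‖t • z‖ ≤ ‖x + t • z‖ := by
  have := hE.fintype
  have h1 : ∀ x : E, ∃ f : X →L[ℝ] ℝ, ‖f‖ ≤ 1 ∧ f x = ‖(x : X)‖ := fun x => by
    obtain ⟨g, hg1, hg2⟩ := exists_dual_vector'' ℝ (x : X)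
    exact ⟨g, hg1, by simpa using hg2⟩
  choose f hf1 hf2 using h1
  obtain ⟨z, hz, hz0, hzρ, hzf⟩ :=
    exists_small_functionals G (hG (ρ / 2) (by positivity)) f hf1 hε
  have hzp : 0 < ‖z‖ := norm_pos_iff.mpr hz0
  let k : ℕ := ⌈ρ / ‖z‖⌉₊
  have hk1 : ρ / ‖z‖ ≤ k := Nat.le_ceil _
  have hk2 : (k : ℝ) < ρ / ‖z‖ + 1 := Nat.ceil_lt_add_one (by positivity)
  have hkn : ‖k • z‖ = k * ‖z‖ := by
    rw [← Nat.cast_smul_eq_nsmul ℝ, norm_smul]; simp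
  refine ⟨k • z, G.nsmul_mem hz k, ?_, ?_, fun x hx t => ?_⟩
  · rw [hkn]; rwa [div_le_iff₀ hzp] at hk1
  · rw [hkn]
    have : (k : ℝ) * ‖z‖ < (ρ / ‖z‖ + 1) * ‖z‖ := by gcongr
    rw [add_mul, div_mul_cancel₀ _ hzp.ne'] at this
    linarith
  · have e1 : t • k • z = ((t : ℝ) * k) • z := by
      rw [mul_smul, Int.cast_smul_eq_zsmul, Nat.cast_smul_eq_nsmul]
    rw [e1]
    set c : ℝ := (t : ℝ) * k
    have h2 : f ⟨x, hx⟩ (x + c • z) ≤ ‖x + c • z‖ := by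
      calc f ⟨x, hx⟩ (x + c • z) ≤ ‖f ⟨x, hx⟩ (x + c • z)‖ := le_abs_self _
        _ ≤ ‖f ⟨x, hx⟩‖ * ‖x + c • z‖ := (f _).le_opNorm _
        _ ≤ 1 * ‖x + c • z‖ := by gcongr; exact hf1 _
        _ = _ := one_mul _
    have h3 : f ⟨x, hx⟩ x = ‖x‖ := hf2 ⟨x, hx⟩
    rw [map_add, h3, map_smul, smul_eq_mul] at h2
    have h4 : |c * f ⟨x, hx⟩ z| ≤ ε * ‖c • z‖ := by
      rw [abs_mul, norm_smul, Real.norm_eq_abs]
      calc |c| * |f ⟨x, hx⟩ z| ≤ |c| * (ε * ‖z‖) := by gcongr; exact hzf _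
        _ = _ := by ring
    linarith [neg_abs_le (c * f ⟨x, hx⟩ z)]

end Pool.Agent.P.MP_0bef39_lc
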