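import Pool.Agent.P.MP_0bef39_lc.Key

/-!
Distances to tail spans of a null sequence in a space with a monotone invariant metric.
-/

namespace Pool.Agent.P.MP_0bef39_lc

open Set Metric Filter Topology Finsupp

variable {X : Type*} [NormedAddCommGroup X] [Module ℝ X]

/-- The span of a tail. -/
def tl (z : ℕ → X) (J : ℕ) : Submodule ℝ X := Submodule.span ℝ (z '' Ici J)

/-- Distance to the span of a tail. -/
noncomputable def dd (z : ℕ → X) (J : ℕ) (x : X) : ℝ := infDist x (tl z J)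

/-- The limit of the distances to the tails. -/
noncomputable def tn (z : ℕ → X) (x : X) : ℝ := ⨆ J, dd z J x

/-- The metric does not increase under contraction by scalars. -/
def Mono (X : Type*) [NormedAddCommGroup X] [Module ℝ X] : Prop :=
  ∀ (t : ℝ) (x : X), |t| ≤ 1 → ‖t • x‖ ≤ ‖x‖

variable {z : ℕ → X}

theorem tl_anti {J J' : ℕ} (h : J ≤ J') : tl z J' ≤ tl z J :=
  Submodule.span_mono (image_mono (Ici_subset_Ici.mpr h))

theorem mem_tl {J j : ℕ} (h : J ≤ j) : z j ∈ tl z J := Submodule.subset_span ⟨j, h, rfl⟩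

theorem dd_le {J : ℕ} (x : X) {y : X} (hy : y ∈ tl z J) : dd z J x ≤ ‖x - y‖ := by
  rw [← dist_eq_norm]; exact infDist_le_dist_of_mem hy

theorem dd_lt {J : ℕ} {x : X} {c : ℝ} (h : dd z J x < c) : ∃ y ∈ tl z J, ‖x - y‖ < c := by
  obtain ⟨y, h1, h2⟩ := (infDist_lt_iff ⟨0, (tl z J).zero_mem⟩).mp h
  exact ⟨y, h1, by rwa [← dist_eq_norm]⟩

theorem dd_nonneg (J : ℕ) (x : X) : 0 ≤ dd z J x := infDist_nonneg

theorem dd_le_norm (J : ℕ) (x : X) : dd z J x ≤ ‖x‖ := by
  simpa using dd_le x (tl z J).zero_mem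

theorem dd_mono {J J' : ℕ} (h : J ≤ J') (x : X) : dd z J x ≤ dd z J' x :=
  infDist_le_infDist_of_subset (tl_anti h) ⟨0, (tl z J').zero_mem⟩

theorem dd_sub_le (J : ℕ) (x x' : X) : dd z J (x - x') ≤ dd z J x + dd z J x' := by
  refine le_of_forall_pos_lt_add fun ε hε => ?_
  obtain ⟨y, h1, h2⟩ := dd_lt (lt_add_of_pos_right (dd z J x) (half_pos hε))
  obtain ⟨y', h3, h4⟩ := dd_lt (lt_add_of_pos_right (dd z J x') (half_pos hε))
  have h5 := dd_le (x - x') ((tl z J).sub_mem h1 h3)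
  have h6 : x - x' - (y - y') = (x - y) - (x' - y') := by abel
  have h7 := norm_sub_le (x - y) (x' - y')
  rw [h6] at h5
  linarith

theorem dd_le_add_mem {J : ℕ} (x : X) {y : X} (hy : y ∈ tl z J) : dd z J x ≤ dd z J (x + y) := by
  have h1 := dd_sub_le (z := z) J (x + y) y
  have h2 : dd z J y = 0 := infDist_zero_of_mem hy
  rwa [add_sub_cancel_right, h2, add_zero] at h1

theorem dd_smul (hm : Mono X) (J : ℕ) {t : ℝ} (ht : |t| ≤ 1) (x : X) :
    dd z J (t • x) ≤ dd z J x := by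
  refine le_of_forall_pos_lt_add fun ε hε => ?_
  obtain ⟨y, h1, h2⟩ := dd_lt (lt_add_of_pos_right (dd z J x) hε)
  have h3 := dd_le (t • x) ((tl z J).smul_mem t h1)
  rw [← smul_sub] at h3
  linarith [hm t (x - y) ht]

theorem dd_smul_mono (hm : Mono X) (J : ℕ) {s t : ℝ} (h : |s| ≤ |t|) (x : X) :
    dd z J (s • x) ≤ dd z J (t • x) := by
  by_cases ht : t = 0
  · have hs : s = 0 := by simpa [ht] using h
    rw [ht, hs]
  · have := dd_smul (z := z) hm J (t := s / t)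
      (by rw [abs_div]; exact div_le_one_of_le₀ h (abs_nonneg _)) (t • x)
    rwa [smul_smul, div_mul_cancel₀ _ ht] at this

theorem continuous_dd (J : ℕ) : Continuous (dd z J) := continuous_infDist_pt _

theorem dd_le_tn (J : ℕ) (x : X) : dd z J x ≤ tn z x :=
  le_ciSup (f := fun J => dd z J x) ⟨‖x‖, by rintro _ ⟨J, rfl⟩; exact dd_le_norm J x⟩ J

theorem tn_sub_le (x x' : X) : tn z (x - x') ≤ tn z x + tn z x' :=
  ciSup_le fun J => (dd_sub_le J x x').trans (add_le_add (dd_le_tn J x) (dd_le_tn J x'))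

theorem tn_le_norm (x : X) : tn z x ≤ ‖x‖ := ciSup_le fun J => dd_le_norm J x

theorem continuous_tn : Continuous (tn z) := by
  refine (LipschitzWith.of_le_add fun x y => ?_).continuous
  have h1 := tn_sub_le (z := z) y (y - x)
  have h2 := tn_le_norm (z := z) (y - x)
  rw [sub_sub_cancel] at h1
  rw [dist_comm, dist_eq_norm]
  linarith

section lc

variable {R : Type*} [Ring R] [Module R X] [SMul R ℝ] [IsScalarTower R ℝ X]

theorem lc_mem_tl (c : ℕ →₀ R) {J : ℕ} (h : ∀ i < J, c i = 0) :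
    linearCombination R z c ∈ tl z J := by
  rw [linearCombination_apply]
  refine Submodule.sum_mem _ fun i hi => Submodule.smul_of_tower_mem _ _ (mem_tl ?_)
  by_contra h1
  exact mem_support_iff.mp hi (h i (by omega))

theorem dd_first (c : ℕ →₀ R) {j : ℕ} (h : ∀ i < j, c i = 0) :
    dd z (j + 1) (c j • z j) ≤ dd z (j + 1) (linearCombination R z c) := by
  conv_rhs => rw [← single_add_erase j c, map_add, linearCombination_single]
  refine dd_le_add_mem _ (lc_mem_tl _ fun i hi => ?_)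
  rcases Nat.lt_succ_iff_lt_or_eq.mp hi with h1 | h1
  · rw [erase_ne h1.ne, h i h1]
  · rw [h1, erase_same]

end lc

theorem exists_round (hm : Mono X) (hz : ∀ j, ‖z j‖ ≤ (1 / 2) ^ j) {J : ℕ} {y : X}
    (hy : y ∈ tl z J) : ∃ a : ℕ →₀ ℤ, (∀ j < J, a j = 0) ∧
      ‖y - linearCombination ℤ z a‖ ≤ 2 * (1 / 2) ^ J := by
  obtain ⟨c, hc, rfl⟩ := (mem_span_image_iff_linearCombination ℝ).mp hy
  have hc' : ∀ j ∈ c.support, J ≤ j := fun j hj => (mem_supported ℝ c).mp hc hj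
  refine ⟨c.mapRange Int.floor (by simp), fun j hj => ?_, ?_⟩
  · have : c j = 0 := by
      by_contra h
      exact absurd (hc' j (mem_support_iff.mpr h)) (by omega)
    simp [this]
  · rw [linearCombination_apply, linearCombination_apply, sum_mapRange_index (by simp), Finsupp.sum,
      Finsupp.sum, ← Finset.sum_sub_distrib]
    obtain ⟨n, hn⟩ := c.support.bddAbove
    calc _ ≤ ∑ j ∈ c.support, ((1 : ℝ) / 2) ^ j := by
          refine norm_sum_le_of_le _ fun j _ => le_trans ?_ (hz j)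
          rw [← Int.cast_smul_eq_zsmul ℝ, ← sub_smul]
          refine hm _ _ ?_
          rw [Int.self_sub_floor, abs_of_nonneg (Int.fract_nonneg _)]
          exact (Int.fract_lt_one _).le
      _ ≤ ∑ j ∈ Finset.Ico J (n + 1), ((1 : ℝ) / 2) ^ j := by
          refine Finset.sum_le_sum_of_subset_of_nonneg (fun j hj => ?_) fun _ _ _ => by positivity
          exact Finset.mem_Ico.mpr ⟨hc' j hj, Nat.lt_succ_of_le (hn hj)⟩
      _ ≤ (1 / 2) ^ J / (1 - 1 / 2) := geom_sum_Ico_le_of_lt_one (by norm_num) (by norm_num)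
      _ = _ := by ring

variable [ContinuousSMul ℝ X]

theorem unif (hm : Mono X) (E : Submodule ℝ X) [FiniteDimensional ℝ E] {γ δ : ℝ} (hγ : 0 < γ)
    (hδ : 0 < δ) (hE : ∀ x ∈ E, x ≠ 0 → ∃ (J : ℕ) (t : ℝ), γ ≤ dd z J (t • x)) :
    ∃ J, ∀ x ∈ E, dd z J x < γ / 2 → tn z x ≤ dd z J x + δ := by
  let b := Module.finBasis ℝ E
  let L : (Fin (Module.finrank ℝ E) → ℝ) →ₗ[ℝ] X := E.subtype ∘ₗ b.equivFun.symm.toLinearMap
  have hL : Continuous L := L.continuous_on_pi
  have hLi : Function.Injective L := E.subtype_injective.comp b.equivFun.symm.injective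
  obtain ⟨n, hn⟩ := (isCompact_sphere (0 : Fin (Module.finrank ℝ E) → ℝ) 1).elim_directed_cover
    (fun n : ℕ => {u | γ / 2 < dd z n ((n : ℝ) • L u)})
    (fun n => isOpen_lt continuous_const ((continuous_dd n).comp (hL.const_smul _)))
    (fun u hu => by
      have h1 : L u ≠ 0 := by
        intro h
        have h2 : u = 0 := hLi (by rw [h, map_zero])
        simp [h2] at hu
      obtain ⟨J, t, h2⟩ := hE (L u) (b.equivFun.symm u).2 h1
      obtain ⟨n, h3⟩ := exists_nat_ge |t|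
      refine mem_iUnion.mpr ⟨max J n, lt_of_lt_of_le (half_lt_self hγ) (h2.trans ?_)⟩
      refine (dd_mono (le_max_left J n) _).trans (dd_smul_mono hm _ ?_ _)
      rw [Nat.abs_cast]
      exact h3.trans (Nat.cast_le.mpr (le_max_right J n)))
    (Monotone.directed_le fun n n' h u hu => lt_of_lt_of_le hu
      ((dd_mono h _).trans (dd_smul_mono hm _ (by simpa using h) _)))
  obtain ⟨n', hn'⟩ :=
    (isCompact_closedBall (0 : Fin (Module.finrank ℝ E) → ℝ) n).elim_directed_cover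
    (fun J : ℕ => {u | tn z (L u) < dd z J (L u) + δ})
    (fun J => isOpen_lt (continuous_tn.comp hL) (((continuous_dd J).comp hL).add continuous_const))
    (fun u _ => by
      obtain ⟨J, hJ⟩ := exists_lt_of_lt_ciSup (f := fun J => dd z J (L u))
        (sub_lt_self (tn z (L u)) hδ)
      exact mem_iUnion.mpr ⟨J, by simp only [mem_ofPred_eq]; linarith⟩)
    (Monotone.directed_le fun n n' h u hu => by
      simp only [mem_ofPred_eq] at hu ⊢
      linarith [dd_mono (z := z) h (L u)])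
  refine ⟨max n n', fun x hx h => ?_⟩
  obtain ⟨u, rfl⟩ : ∃ u, L u = x := ⟨b.equivFun ⟨x, hx⟩, by simp [L]⟩
  by_cases hu : ‖u‖ ≤ n
  · have h1 : tn z (L u) < dd z n' (L u) + δ := hn' (mem_closedBall_zero_iff.mpr hu)
    linarith [dd_mono (z := z) (le_max_right n n') (L u)]
  · exfalso
    have hu' : (n : ℝ) < ‖u‖ := not_le.mp hu
    have h0 : 0 < ‖u‖ := lt_of_le_of_lt (Nat.cast_nonneg n) hu'
    have h1 : γ / 2 < dd z n ((n : ℝ) • L (‖u‖⁻¹ • u)) :=
      hn (by simp [norm_smul, h0.ne'])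
    rw [map_smul, smul_smul] at h1
    have h2 := dd_smul (z := z) hm n (t := n * ‖u‖⁻¹) (by
      rw [abs_of_nonneg (by positivity), ← div_eq_mul_inv]
      exact div_le_one_of_le₀ hu'.le h0.le) (L u)
    linarith [dd_mono (z := z) (le_max_left n n') (L u)]

theorem claim [CompleteSpace X] (hm : Mono X) (hz : ∀ j, ‖z j‖ ≤ (1 / 2) ^ j)
    (hY : ∀ v, (∀ J, v ∈ closure (tl z J : Set X)) → v = 0) {γ : ℝ} (hγ : 0 < γ)
    (hbig : ∀ J, ∃ y ∈ tl z J, γ ≤ ‖y‖) {η : ℝ} (hη : 0 < η) :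
    ∃ κ > 0, ∀ J, ∃ a : ℕ →₀ ℤ, (∀ j < J, a j = 0) ∧ ‖linearCombination ℤ z a‖ ≤ η ∧
      κ ≤ tn z (linearCombination ℤ z a) := by
  by_contra hcon
  push Not at hcon
  have h1 : ∀ κ > 0, ∃ J, ∀ y ∈ tl z J, ‖y‖ ≤ η / 2 → tn z y < κ := by
    intro κ hκ
    obtain ⟨J, hJ⟩ := hcon (κ / 2) (half_pos hκ)
    obtain ⟨J', hJ'⟩ := exists_pow_lt_of_lt_one (lt_min (by positivity : 0 < κ / 4)
      (by positivity : 0 < η / 4)) (by norm_num : (1 : ℝ) / 2 < 1)
    refine ⟨max J J', fun y hy h => ?_⟩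
    obtain ⟨a, h2, h3⟩ := exists_round hm hz hy
    have h4 : ((1 : ℝ) / 2) ^ max J J' ≤ (1 / 2) ^ J' :=
      pow_le_pow_of_le_one (by norm_num) (by norm_num) (le_max_right _ _)
    have h5 := min_le_left (κ / 4) (η / 4)
    have h6 := min_le_right (κ / 4) (η / 4)
    set y' := linearCombination ℤ z a
    have h7 : ‖y'‖ ≤ ‖y‖ + ‖y - y'‖ := by simpa using norm_sub_le y (y - y')
    have h8 := hJ a (fun j hj => h2 j (lt_of_lt_of_le hj (le_max_left _ _))) (by linarith)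
    have h9 := tn_sub_le (z := z) y' (y' - y)
    have h10 := tn_le_norm (z := z) (y' - y)
    rw [sub_sub_cancel] at h9
    rw [norm_sub_rev] at h10
    linarith
  set ρ := min γ (η / 4) with hρ
  have hρ0 : 0 < ρ := lt_min hγ (by positivity)
  have hρ1 : ρ ≤ γ := min_le_left _ _
  have hρ2 : ρ ≤ η / 4 := min_le_right _ _
  choose J0 hJ0 using fun i : ℕ => h1 (ρ / 4 * (1 / 2) ^ i) (by positivity)
  obtain ⟨y0, hy0, hy0'⟩ : ∃ y ∈ tl z (J0 0), ‖y‖ = ρ := by
    obtain ⟨y, h2, h3⟩ := hbig (J0 0)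
    have hc : Continuous fun t : ℝ => ‖t • y‖ := by fun_prop
    obtain ⟨t, -, ht⟩ := intermediate_value_Icc zero_le_one hc.continuousOn
      (show ρ ∈ Icc _ _ from ⟨by simpa using hρ0.le, by simpa using hρ1.trans h3⟩)
    exact ⟨t • y, (tl z _).smul_mem t h2, ht⟩
  have hstep : ∀ (i : ℕ) (y : X), y ∈ tl z (J0 i) → ‖y‖ ≤ η / 2 →
      ∃ y' ∈ tl z (max (J0 (i + 1)) i), ‖y - y'‖ < ρ / 4 * (1 / 2) ^ i :=
    fun i y h2 h3 => dd_lt ((dd_le_tn _ y).trans_lt (hJ0 i y h2 h3))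
  choose! nx hnx1 hnx2 using hstep
  let w : ℕ → X := fun i => Nat.rec y0 (fun i y => nx i y) i
  have hw : ∀ i, w (i + 1) = nx i (w i) := fun i => rfl
  have hinv : ∀ i, w i ∈ tl z (J0 i) ∧ ‖y0 - w i‖ ≤ ρ / 2 - ρ / 2 * (1 / 2) ^ i := by
    intro i
    induction i with
    | zero => exact ⟨hy0, by simp [w]⟩
    | succ i ih =>
      have h2 : ‖w i‖ ≤ ‖y0‖ + ‖y0 - w i‖ := by simpa using norm_sub_le y0 (y0 - w i)
      have h3 : 0 ≤ ρ / 2 * (1 / 2) ^ i := by positivity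
      have h4 : ‖w i‖ ≤ η / 2 := by linarith [ih.2]
      refine ⟨tl_anti (le_max_left _ _) (hnx1 i _ ih.1 h4), ?_⟩
      have h5 := hnx2 i _ ih.1 h4
      have h6 := norm_sub_le_norm_sub_add_norm_sub y0 (w i) (nx i (w i))
      rw [hw, pow_succ]
      linarith [ih.2]
  have hsm : ∀ i, ‖w i‖ ≤ η / 2 := fun i => by
    have h2 : ‖w i‖ ≤ ‖y0‖ + ‖y0 - w i‖ := by simpa using norm_sub_le y0 (y0 - w i)
    have h3 : 0 ≤ ρ / 2 * (1 / 2) ^ i := by positivity
    linarith [(hinv i).2]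
  obtain ⟨v, hv⟩ := cauchySeq_tendsto_of_complete (u := w)
    (cauchySeq_of_le_geometric (1 / 2) (ρ / 4) (by norm_num) fun i => by
      rw [dist_eq_norm, hw]; exact (hnx2 i _ (hinv i).1 (hsm i)).le)
  have hv0 : v = 0 := hY v fun J => mem_closure_of_tendsto hv
    (eventually_atTop.mpr ⟨J + 1, fun i hi => by
      obtain ⟨k, rfl⟩ : ∃ k, i = k + 1 := ⟨i - 1, by omega⟩
      exact tl_anti (le_trans (by omega) (le_max_right _ k)) (hnx1 k _ (hinv k).1 (hsm k))⟩)
  have h2 : ‖y0 - v‖ ≤ ρ / 2 := le_of_tendsto' (hv.const_sub y0).norm fun i => by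
    have h3 : 0 ≤ ρ / 2 * (1 / 2) ^ i := by positivity
    linarith [(hinv i).2]
  rw [hv0, sub_zero] at h2
  linarith

end Pool.Agent.P.MP_0bef39_lc
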