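import Pool.Agent.P.MP_0bef39_lc.Example

/-!
The quotient of the lattice by the discrete subgroup is tame.
-/

namespace Pool.Agent.P.MP_0bef39_lc

open Set Filter Topology

/-- The group. -/
noncomputable abbrev AA : AddSubgroup (XX ⧸ Ga) := Gr.map (QuotientAddGroup.mk' Ga)

theorem mem_Gr_of {F : XX} (h : (F : XX ⧸ Ga) ∈ AA) : F ∈ Gr := by
  obtain ⟨F', h1, h2⟩ := h
  simpa using Gr.add_mem h1 (Ga_le (QuotientAddGroup.eq.mp h2))

theorem isClosed_AA : IsClosed (AA : Set (XX ⧸ Ga)) := by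
  rw [← (QuotientAddGroup.isQuotientMap_mk Ga).isClosed_preimage]
  convert isClosed_Gr using 1
  ext F
  exact ⟨mem_Gr_of, fun h => ⟨F, h, rfl⟩⟩

theorem Co.dvd {F F' : XX} {a a' : ℕ → ℤ} (h : Co F a) (h' : Co F' a')
    (he : (F : XX ⧸ Ga) = F') (k : ℕ) : (NN k : ℤ) ∣ a k - a' k := by
  obtain ⟨b, h1, h2⟩ := QuotientAddGroup.eq_iff_sub_mem.mp he
  have := (h.sub h').eq.symm.trans h2.eq
  have h3 : a k - a' k = b k := congrFun this k
  exact h3 ▸ h1 k

/-- Basic neighbourhoods of zero. -/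
def VV (m : ℕ) (ε : ℝ) : Set AA :=
  ((↑) : AA → XX ⧸ Ga) ⁻¹' (((↑) : XX → XX ⧸ Ga) '' {F | ‖F m‖ < ε})

theorem VV_mem (m : ℕ) {ε : ℝ} (hε : 0 < ε) : VV m ε ∈ 𝓝 (0 : AA) :=
  ((QuotientAddGroup.isOpenMap_coe _ (isOpen_lt (continuous_apply m).norm continuous_const)).preimage
    continuous_subtype_val).mem_nhds ⟨0, by simpa using hε, rfl⟩

theorem lt_of_mem_VV {m : ℕ} {ε : ℝ} {x : AA} (hx : x ∈ VV m ε) {F : XX} {a : ℕ → ℤ} (h : Co F a)
    (he : (x : XX ⧸ Ga) = F) {k : ℕ} {j : ℤ} (hj : j.natAbs ≤ NN k / 2)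
    (hd : (NN k : ℤ) ∣ j - a k) : |(j : ℝ)| * wt m k < ε := by
  obtain ⟨F', h1, h2⟩ := hx
  have h3 := Co.of_mem (mem_Gr_of (h2 ▸ x.2))
  have h4 := far_of_small hj (b := co F' k) (by
    simpa using dvd_add hd (h.dvd h3 (he.symm.trans h2.symm) k))
  exact lt_of_le_of_lt ((mul_le_mul_of_nonneg_right h4 (wt_pos m k).le).trans (h3.le_norm m k)) h1

theorem nss : ∃ U ∈ 𝓝 (0 : AA), ∀ H : AddSubgroup AA, (H : Set AA) ⊆ U → H = ⊥ := by
  refine ⟨VV 0 (1 / 4), VV_mem 0 (by norm_num), fun H hH => ?_⟩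
  rw [eq_bot_iff]
  rintro ⟨_, F, hF, rfl⟩ hx
  have h1 := Co.of_mem hF
  refine Subtype.ext ((QuotientAddGroup.eq_zero_iff F).mpr ⟨_, fun k => ?_, h1⟩)
  by_contra h2
  obtain ⟨c, hc⟩ := exists_mul_eq h2 (NN k / 2 : ℕ)
  have h3 := lt_of_mem_VV (hH (H.zsmul_mem hx c)) (h1.zsmul c) rfl (k := k) (j := (NN k / 2 : ℕ))
    (Int.natAbs_natCast _).le (by simpa using hc.neg_right)
  rw [wt, pow_zero, mul_one_div, div_lt_iff₀ (NN_pos k), Int.cast_natCast, Nat.abs_cast] at h3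
  have h4 : NN k ≤ 4 * (NN k / 2) := by have := (NN_prime k).two_le; omega
  have h5 : (NN k : ℝ) ≤ 4 * (NN k / 2 : ℕ) := by exact_mod_cast h4
  linarith

theorem not_lc : ¬ LocallyCompactSpace AA := by
  intro h
  obtain ⟨K, hK1, hK2⟩ := exists_compact_mem_nhds (0 : AA)
  obtain ⟨W, hW, hWK⟩ := (mem_nhds_subtype _ _ _).mp hK2
  have hW' : ((↑) : XX → XX ⧸ Ga) ⁻¹' W ∈ 𝓝 (0 : XX) :=
    QuotientAddGroup.continuous_mk.continuousAt.preimage_mem_nhds hW
  rw [nhds_pi, Filter.mem_pi] at hW'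
  obtain ⟨I, hI, t, ht1, ht2⟩ := hW'
  obtain ⟨m, hm⟩ := hI.bddAbove
  let a : ℕ → ℤ := fun k => ⌈(wt (m + 1) k)⁻¹⌉
  have ha1 : ∀ k, 1 ≤ (a k : ℝ) * wt (m + 1) k := fun k => by
    rw [← inv_le_iff_one_le_mul₀ (wt_pos _ _)]; exact Int.le_ceil _
  have ha2 : ∀ k, (a k : ℝ) * wt (m + 1) k ≤ 1 + wt (m + 1) k := fun k => by
    have := mul_le_mul_of_nonneg_right (Int.ceil_lt_add_one (wt (m + 1) k)⁻¹).le
      (wt_pos (m + 1) k).le
    rwa [add_mul, inv_mul_cancel₀ (wt_pos _ _).ne', one_mul] at this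
  have ha0 : ∀ k, (0 : ℝ) < a k := fun k => pos_of_mul_pos_left
    (one_pos.trans_le (ha1 k)) (wt_pos _ _).le
  have ha3 : ∀ k, m ≤ k → ∀ i ≤ m, (a k : ℝ) * wt i k ≤ 2 * (1 / 2) ^ k := by
    intro k hk i hi
    refine le_trans ?_ (mul_wt_le (m := m) (t := a k) zero_le_two
      (by linarith [ha2 k, wt_le (m := m + 1) (k := k) (by omega)]))
    unfold wt
    gcongr
    · exact (ha0 k).le
    · exact one_le_RR k
  let y : ℕ → AA := fun k => ⟨(a k • ee k : XX), _, ((Co_ee k).zsmul (a k)).mem, rfl⟩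
  have h1 : ∀ᶠ k in atTop, y k ∈ K := by
    have h2 : ∀ i ∈ I, ∀ᶠ k in atTop, (a k • ee k) i ∈ t i := by
      intro i hi
      refine Tendsto.eventually_mem (l₂ := 𝓝 0) ?_ (ht1 i)
      have h3 : Tendsto (fun k : ℕ => 2 * ((1 : ℝ) / 2) ^ k) atTop (𝓝 0) := by
        simpa using (tendsto_pow_atTop_nhds_zero_of_lt_one (r := (1 : ℝ) / 2) (by norm_num)
          (by norm_num)).const_mul 2
      refine squeeze_zero_norm' (eventually_atTop.mpr ⟨m, fun k hk => ?_⟩) h3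
      rw [Pi.smul_apply, ee, ← Int.cast_smul_eq_zsmul ℝ, norm_smul, lp.norm_single (by norm_num),
        Real.norm_of_nonneg (ha0 k).le, Real.norm_of_nonneg (wt_pos _ _).le]
      exact ha3 k hk i (hm hi)
    filter_upwards [(eventually_all_finite hI).mpr h2] with k hk
    exact hWK (ht2 hk)
  have : SecondCountableTopology (XX ⧸ Ga) := inferInstance
  have : SecondCountableTopology AA := TopologicalSpace.Subtype.secondCountableTopology _
  obtain ⟨x, -, φ, hφ, h2⟩ := hK1.tendsto_subseq' h1.frequently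
  have h3 := (h2.comp (tendsto_add_atTop_nat 1)).sub h2
  rw [sub_self] at h3
  obtain ⟨n, h4, h5⟩ := ((h3.eventually_mem (VV_mem (m + 1) one_pos)).and
    (eventually_ge_atTop (m + 1))).exists
  have h6 : m + 2 ≤ φ (n + 1) := le_trans (by omega) hφ.le_apply
  have h7 : φ (n + 1) ≠ φ n := (hφ (Nat.lt_add_one n)).ne'
  set k := φ (n + 1)
  have h8 : (a k).natAbs ≤ NN k / 2 := by
    have h9 := ha3 k (by omega) 0 (Nat.zero_le _)
    have h10 : ((1 : ℝ) / 2) ^ k ≤ (1 / 2) ^ 2 :=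
      pow_le_pow_of_le_one (by norm_num) (by norm_num) (by omega)
    rw [wt, pow_zero, mul_one_div, div_le_iff₀ (NN_pos k)] at h9
    have h11 : (a k : ℝ) * 2 ≤ NN k := by nlinarith [NN_pos k]
    have h12 : a k * 2 ≤ NN k := by exact_mod_cast h11
    have h13 : 0 < a k := by exact_mod_cast ha0 k
    omega
  have h9 := lt_of_mem_VV h4 (((Co_ee k).zsmul (a k)).sub ((Co_ee (φ n)).zsmul (a (φ n)))) rfl h8
    (by simp [h7])
  rw [abs_of_pos (ha0 k)] at h9
  linarith [ha1 k]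

theorem comap_closed {S : AddSubgroup AA} (hS : IsClosed (S : Set AA)) :
    IsClosed ((S.map AA.subtype).comap (QuotientAddGroup.mk' Ga) : Set XX) :=
  (isClosed_AA.isClosedEmbedding_subtypeVal.isClosedMap _ hS).preimage
    QuotientAddGroup.continuous_mk

theorem Ga_le_comap (S : AddSubgroup AA) :
    Ga ≤ (S.map AA.subtype).comap (QuotientAddGroup.mk' Ga) := fun F hF =>
  ⟨0, S.zero_mem, ((QuotientAddGroup.eq_zero_iff F).mpr hF).symm⟩

theorem monothetic : ∃ a : AA, Dense (AddSubgroup.zmultiples a : Set AA) := by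
  obtain ⟨g, hg⟩ := exists_one
  let a : AA := ⟨(g : XX ⧸ Ga), g, hg.mem, rfl⟩
  refine ⟨a, ?_⟩
  rintro ⟨_, F, hF, rfl⟩
  obtain ⟨x, h1, h2⟩ := mem_of_mult
    (comap_closed (AddSubgroup.zmultiples a).isClosed_topologicalClosure) (Ga_le_comap _) (g := g)
    ⟨a, subset_closure (AddSubgroup.mem_zmultiples a), rfl⟩ hg (Co.of_mem hF) fun l =>
      exists_mul_eq (Nat.prime_iff_prime_int.mp (NN_prime l)).not_dvd_one _
  have h3 : x = ⟨_, F, hF, rfl⟩ := Subtype.ext h2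
  exact h3 ▸ h1

theorem tame (X : Type) [mX : MeasurableSpace X] [StandardBorelSpace X] [AddAction AA X]
    (hm : @Measurable (AA × X) X (MeasurableSpace.comap Prod.fst (borel AA) ⊔
      MeasurableSpace.comap Prod.snd mX) mX (fun p => p.1 +ᵥ p.2)) :
    MeasurableSet {p : X × X | ∃ g : AA, g +ᵥ p.1 = p.2} := by
  borelize XX
  borelize (↥AA)
  have : PolishSpace Gr := isClosed_Gr.polishSpace
  let π : Gr →+ AA := (QuotientAddGroup.mk' Ga).addSubgroupMap Gr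
  have hπ : Continuous π :=
    (QuotientAddGroup.continuous_mk.comp continuous_subtype_val).subtype_mk _
  have hm' : Measurable fun p : X × Gr => π p.2 +ᵥ p.1 :=
    hm.comp ((hπ.measurable.comp measurable_snd).prodMk measurable_fst)
  let St : X → AddSubgroup XX := fun x =>
    ((AddAction.stabilizer AA x).comap π).map Gr.subtype
  have hSt : ∀ (x : X) (g g' : Gr), π g +ᵥ x = π g' +ᵥ x ↔
      g - g' ∈ (AddAction.stabilizer AA x).comap π := by
    intro x g g'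
    rw [AddSubgroup.mem_comap, AddAction.mem_stabilizer_iff, map_sub, sub_eq_neg_add, add_vadd,
      neg_vadd_eq_iff]
  have hSt' : ∀ (x : X) (g g' : Gr), π g +ᵥ x = π g' +ᵥ x ↔ (g : XX) - g' ∈ St x := fun x g g' =>
    (hSt x g g').trans (AddSubgroup.mem_map_iff_mem (f := Gr.subtype) Subtype.val_injective).symm
  have hc : ∀ x, IsClosed (St x : Set XX) := fun x =>
    isClosed_Gr.isClosedEmbedding_subtypeVal.isClosedMap _
      (isClosed_of_measurable (φ := fun g : Gr => π g +ᵥ x) (hm'.comp measurable_prodMk_left) _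
        (hSt x))
  have hΓ : ∀ x, Ga ≤ St x := fun x F hF => by
    have h1 := (hSt' x ⟨F, Ga_le hF⟩ 0).mp (congrArg (· +ᵥ x)
      (Subtype.ext (QuotientAddGroup.eq_iff_sub_mem.mpr (by simpa using hF))))
    simpa using h1
  let e : ℕ → Gr := fun k => ⟨ee k, (Co_ee k).mem⟩
  have he : ∀ (x : X) k, π (e k) +ᵥ x = x ↔ ee k ∈ St x := fun x k => by
    simpa using hSt' x (e k) 0
  let T : Set (X × Gr) := {p | ∀ k, (π (e k) +ᵥ p.1 = p.1 → co p.2 k = 0) ∧
    co p.2 k * 2 ∈ Ioc (-NN k : ℤ) (NN k)}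
  have hco : ∀ k, Measurable fun p : X × Gr => co p.2 k := fun k =>
    (((continuous_coord 0 k).mul continuous_const).measurable.comp
      (measurable_subtype_coe.comp measurable_snd)).floor
  have hT : MeasurableSet T := by
    refine Measurable.setOf (Measurable.forall fun k => Measurable.and (Measurable.imp ?_ ?_) ?_)
    · exact (measurableSet_eq_fun (hm'.comp (measurable_fst.prodMk measurable_const))
        measurable_fst).mem
    · exact (hco k).eq_const 0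
    · exact ((hco k) (MeasurableSet.of_discrete (s := {j | j * 2 ∈ Ioc (-NN k : ℤ) (NN k)}))).mem
  have hinj : InjOn (fun p : X × Gr => (p.1, π p.2 +ᵥ p.1)) T := by
    rintro ⟨x, g⟩ h1 ⟨x', g'⟩ h2 h3
    obtain ⟨rfl, h4⟩ := Prod.mk.inj h3
    have h5 := Co.of_mem g.2
    have h6 := Co.of_mem g'.2
    refine Prod.ext rfl (Subtype.ext (h5.ext ?_))
    rw [show co (g : XX) = co g' from funext fun k => ?_]
    · exact h6
    by_cases h7 : (NN k : ℤ) ∣ co g k - co g' k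
    · have : NeZero (NN k) := ⟨(NN_prime k).ne_zero⟩
      have h8 := (ZMod.intCast_eq_intCast_iff_dvd_sub _ _ _).mpr h7
      exact ((ZMod.valMinAbs_spec _ _).mpr ⟨h8, (h1 k).2⟩).symm.trans
        ((ZMod.valMinAbs_spec _ _).mpr ⟨rfl, (h2 k).2⟩)
    · have h8 := (he x k).mpr (ee_mem (hc x) (hΓ x) ((hSt' x g g').mp h4) (h5.sub h6) h7)
      exact ((h1 k).1 h8).trans ((h2 k).1 h8).symm
  convert hT.image_of_measurable_injOn (measurable_fst.prodMk hm') hinj using 1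
  ext ⟨x, y⟩
  constructor
  · rintro ⟨⟨_, F, hF, rfl⟩, h0⟩
    obtain rfl : π ⟨F, hF⟩ +ᵥ x = y := h0
    have h1 := Co.of_mem hF
    classical
    have hN : ∀ k, NeZero (NN k) := fun k => ⟨(NN_prime k).ne_zero⟩
    obtain ⟨F', h2⟩ := h1.exists_le
      (fun k => if ee k ∈ St x then 0 else (co F k : ZMod (NN k)).valMinAbs) fun k => by
        split_ifs
        · simp
        · rw [Int.abs_eq_natAbs, Int.abs_eq_natAbs, Nat.cast_le]
          exact ZMod.natAbs_min_of_le_div_two (NN k) _ _ (by simp) (ZMod.natAbs_valMinAbs_le _)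
    refine ⟨(x, ⟨F', h2.mem⟩), fun k => ?_, Prod.ext rfl ?_⟩
    · simp only [h2.eq, he]
      split_ifs with h3
      · simpa using (NN_prime k).pos
      · exact ⟨fun h4 => (h3 h4).elim, ZMod.valMinAbs_mem_Ioc _⟩
    · refine (hSt' x ⟨F', h2.mem⟩ ⟨F, hF⟩).mpr (mem_of_units (hc x) (hΓ x) (h2.sub h1) fun k => ?_)
      by_cases h3 : ee k ∈ St x
      · exact Or.inl h3
      · refine Or.inr ?_
        rw [Pi.sub_apply, if_neg h3, ← ZMod.intCast_eq_intCast_iff_dvd_sub]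
        simp
  · rintro ⟨⟨x', g⟩, -, h⟩
    obtain ⟨rfl, rfl⟩ := Prod.mk.inj h
    exact ⟨π g, rfl⟩

end Pool.Agent.P.MP_0bef39_lc
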